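import Pool.Agent.H76.PP.Te

/-!
MP_78d38b_GN (helper42): homomorphisms of cubic fields.
-/

set_option autoImplicit false
set_option linter.unusedSectionVars false
open scoped Classical

open NumberField IsDedekindDomain
open H76PP

namespace H42GN

variable {k L k' L' : Type} [Field k] [NumberField k] [Field L] [NumberField L] [Field k']
  [NumberField k'] [Field L'] [NumberField L'] [Algebra k L] [Algebra k k'] [Algebra k' L']

theorem co_m3 {a b : k} {θ : L} (h : Cub k L a b θ) (x y : L) :
    (fun i => h.co i (x * y)) = m3 a b (fun i => h.co i x) (fun i => h.co i y) := by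
  have hx : ev θ (fun i => h.co i x) = x := (h.eq_co x).symm
  have hy : ev θ (fun i => h.co i y) = y := (h.eq_co y).symm
  have h1 : x * y = ev θ (m3 a b (fun i => h.co i x) (fun i => h.co i y)) := by
    rw [← Te_ev_mul h, hx, hy]
  funext i
  rw [h1]
  exact h.co_mk _ i

theorem exists_lift {a b : k} {θ : L} {θ' : L'} (h : Cub k L a b θ)
    (h' : Cub k' L' (algebraMap k k' a) (algebraMap k k' b) θ') :
    ∃ φ : L →+* L', (∀ x : k, φ (algebraMap k L x) = algebraMap k' L' (algebraMap k k' x)) ∧
      φ θ = θ' := by
  obtain ⟨o0, o1, o2⟩ := h.co_one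
  let φ : L →+* L' :=
    { toFun := fun x => ev θ' (fun i => algebraMap k k' (h.co i x))
      map_one' := by
        simp only [ev, o0, o1, o2, map_one, map_zero]
        ring
      map_mul' := fun x y => by
        rw [Te_ev_mul h']
        congr 1
        funext i
        rw [Te_m3_map, ← co_m3 h]
      map_zero' := by
        simp only [ev, map_zero]
        ring
      map_add' := fun x y => by
        simp only [ev, map_add]
        ring }
  refine ⟨φ, fun x => ?_, ?_⟩
  · obtain ⟨e0, e1, e2⟩ := h.co_mk' x 0 0
    simp only [map_zero, zero_mul, add_zero] at e0 e1 e2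
    change ev θ' (fun i => algebraMap k k' (h.co i (algebraMap k L x))) = _
    simp only [ev, e0, e1, e2, map_zero]
    ring
  · obtain ⟨e0, e1, e2⟩ := h.co_theta
    change ev θ' (fun i => algebraMap k k' (h.co i θ)) = _
    simp only [ev, e0, e1, e2, map_zero, map_one]
    ring

/-- The image of an element. -/
theorem lift_ev {θ : L} {θ' : L'} (φ : L →+* L')
    (hφ : ∀ x : k, φ (algebraMap k L x) = algebraMap k' L' (algebraMap k k' x)) (hθ : φ θ = θ')
    (e : Fin 3 → k) : φ (ev θ e) = ev θ' (fun i => algebraMap k k' (e i)) := by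
  unfold ev
  rw [map_add, map_add, map_mul φ (algebraMap k L (e 1)), map_mul φ (algebraMap k L (e 2)), map_pow,
    hφ, hφ, hφ, hθ]

/-- The cubic polynomial has no root. -/
theorem cub_noroot {a b : k} {θ : L} (h : Cub k L a b θ) (t : k) : t ^ 3 + a * t + b ≠ 0 := by
  intro ht
  have h1 := congrArg (algebraMap k L) ht
  simp only [map_add, map_mul, map_pow, map_zero] at h1
  have h2 : (θ - algebraMap k L t) *
      (θ ^ 2 + algebraMap k L t * θ + (algebraMap k L t ^ 2 + algebraMap k L a)) = 0 := by
    linear_combination h.root - h1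
  rcases mul_eq_zero.1 h2 with h3 | h3
  · obtain ⟨-, h4, -⟩ := h.li (-t) 1 0 (by
      rw [map_neg, map_one, map_zero]
      linear_combination h3)
    exact one_ne_zero h4
  · obtain ⟨-, -, h4⟩ := h.li (t ^ 2 + a) t 1 (by
      rw [map_add, map_pow, map_one]
      linear_combination h3)
    exact one_ne_zero h4

end H42GN
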