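import Pool.Agent.H42.GN.Hb
import Pool.Agent.H42.GN.Hc
import Pool.Agent.H30.OD.Od3

/-!
MP_78d38b_GN, section 2 (helper42): the relaxed local conditions descend from `N` to `M`, `N / M` Galois of
two-power degree.
-/

set_option autoImplicit false
set_option linter.unusedSectionVars false
open scoped Classical

open WithZero NumberField IsDedekindDomain H38RT
open H38T1 (SC sc scu rep eo la si OddP)
open H76PP H73P2 H36CY H73CY H73ZO H30ZO H38OD

namespace H42GN

theorem exists_quad {M N : Type} [Field M] [Field N] [Algebra M N] [FiniteDimensional M N]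
    [IsGalois M N] {r : ℕ} (hr : Module.finrank M N = 2 ^ (r + 1)) :
    ∃ k : IntermediateField M N, Module.finrank M k = 2 ∧ Module.finrank k N = 2 ^ r := by
  have _ : Fact (Nat.Prime 2) := ⟨Nat.prime_two⟩
  have hcard : Nat.card (N ≃ₐ[M] N) = 2 ^ (r + 1) := by
    rw [IsGalois.card_aut_eq_finrank, hr]
  obtain ⟨H, hH⟩ := Sylow.exists_subgroup_card_pow_prime (G := N ≃ₐ[M] N) 2 (n := r)
    (by rw [hcard]; exact pow_dvd_pow 2 (Nat.le_succ r))
  have h2 : Module.finrank (IntermediateField.fixedField H) N = 2 ^ r := by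
    rw [IntermediateField.finrank_fixedField_eq_card, hH]
  refine ⟨IntermediateField.fixedField H, ?_, h2⟩
  have h1 := Module.finrank_mul_finrank M (IntermediateField.fixedField H) N
  rw [h2, hr, pow_succ, mul_comm (2 ^ r) 2] at h1
  exact Nat.eq_of_mul_eq_mul_right (Nat.pow_pos (by norm_num)) h1

section Base

variable {K M N LM LN : Type} [Field K] [NumberField K] [Field M] [NumberField M] [Field N]
  [NumberField N] [Field LM] [NumberField LM] [Field LN] [NumberField LN] [Algebra K M]
  [Algebra M N] [Algebra K N] [IsScalarTower K M N] [Algebra M LM] [Algebra N LN]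

theorem rx_base (hgal : IsGalois M N) (h1 : Module.finrank M N = 1)
    {Sg T : Finset (HeightOneSpectrum (𝓞 K))} {a b : K} (hD : 4 * a ^ 3 + 27 * b ^ 2 ≠ 0)
    {θM : LM} {θN : LN} (hM : Cub M LM (algebraMap K M a) (algebraMap K M b) θM)
    (hN : Cub N LN (algebraMap K N a) (algebraMap K N b) θN) {e : Fin 3 → M}
    (hne : ev θM e ≠ 0) (hsq : IsSquare (Algebra.norm M (ev θM e)))
    (h : Rx K N LN Sg T a b θN (fun i => algebraMap M N (e i))) : Rx K M LM Sg T a b θM e := by
  have hodd : Odd (Module.finrank M N) := by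
    rw [h1]
    exact odd_one
  have hsurj : Function.Surjective (algebraMap M N) := by
    rw [Algebra.surjective_algebraMap_iff]
    exact (Subalgebra.bot_eq_top_iff_finrank_eq_one.2 h1).symm
  have hab : ∀ x : K, algebraMap K N x = algebraMap M N (algebraMap K M x) :=
    IsScalarTower.algebraMap_apply K M N
  have hN' : Cub N LN (algebraMap M N (algebraMap K M a)) (algebraMap M N (algebraMap K M b)) θN := by
    rw [← hab, ← hab]
    exact hN
  obtain ⟨φ, hφ, hφθ⟩ := exists_lift hM hN'
  let _ : Algebra LM LN := φ.toAlgebra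
  let _ : Algebra M LN := ((algebraMap N LN).comp (algebraMap M N)).toAlgebra
  have _ : IsScalarTower M N LN := IsScalarTower.of_algebraMap_eq fun x => rfl
  have _ : IsScalarTower M LM LN := IsScalarTower.of_algebraMap_eq fun x => (hφ x).symm
  have hev : ∀ d : Fin 3 → M, algebraMap LM LN (ev θM d) = ev θN (fun i => algebraMap M N (d i)) :=
    fun d => lift_ev φ hφ hφθ d
  have hLs : Function.Surjective (algebraMap LM LN) := by
    intro y
    have h2 := hN.eq_co y
    choose d hd using fun i => hsurj (hN.co i y)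
    refine ⟨ev θM d, ?_⟩
    rw [hev, funext hd]
    exact h2.symm
  have hDM : 4 * (algebraMap K M a) ^ 3 + 27 * (algebraMap K M b) ^ 2 ≠ 0 := by
    have h2 : algebraMap K M (4 * a ^ 3 + 27 * b ^ 2) ≠ 0 := (map_ne_zero _).2 hD
    rwa [map_add, map_mul, map_mul, map_pow, map_pow, map_ofNat, map_ofNat] at h2
  have hnd : Te_nf (algebraMap K M a) (algebraMap K M b) e ≠ 0 := by
    rw [← Te_norm hM e, Ne, Algebra.norm_eq_zero_iff]
    exact hne
  refine ⟨hne, hsq, ?_, ?_, ?_⟩
  · intro w hw1 hw2
    obtain ⟨W, rfl⟩ := exists_above (L := LN) w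
    have e1 : dn K (dn N W) = dn K (dn M (dn LM W)) := by
      have h3 : dn M (dn LM W) = dn M W := dn_dn W
      have h4 : dn M (dn N W) = dn M W := dn_dn W
      have h5 : dn K (dn M (dn N W)) = dn K (dn N W) := dn_dn (dn N W)
      rw [h3, ← h4, h5]
    have h3 := h.even W (by rw [e1]; exact hw1) (by rw [e1]; exact hw2)
    rw [← hev] at h3
    obtain ⟨n, hn, hn1⟩ := ord_dn (K := LM) W
    have hn2 : n = 1 := by
      obtain ⟨π, hπ⟩ := W.valuation_exists_uniformizer LN
      have hπ0 : π ≠ 0 := by
        rintro rfl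
        rw [map_zero] at hπ
        exact exp_ne_zero hπ.symm
      obtain ⟨y, rfl⟩ := hLs π
      have hy : y ≠ 0 := by
        rintro rfl
        exact hπ0 (map_zero _)
      have h4 := hn1 y hy
      have h5 : ord (W.valuation LN) (algebraMap LM LN y) = 1 := by
        unfold ord
        rw [hπ, log_exp]
        norm_num
      rw [h5] at h4
      have h6 : ((n : ℤ)) ∣ 1 := ⟨_, h4⟩
      exact_mod_cast Int.eq_one_of_dvd_one (Int.natCast_nonneg n) h6
    have hx0 : algebraMap LM LN (ev θM e) ≠ 0 := (map_ne_zero _).2 hne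
    rw [H38T1.eo_sc hx0, hn1 _ hne, hn2, Nat.cast_one, one_mul] at h3
    rw [H38T1.eo_sc hne]
    exact h3
  · intro u hu
    obtain ⟨u', rfl⟩ := exists_above (L := N) u
    have e1 : dn K (dn M u') = dn K u' := dn_dn u'
    have h3 := h.sg u' (by rw [← e1]; exact hu)
    refine H30OD.LC_down hgal hodd hDM hnd ?_
    rw [hab, hab] at h3
    exact h3
  · intro s
    obtain ⟨s', hs'⟩ := H30OD.exists_real hgal hodd s
    have h3 := h.real s'
    rw [hab, hab] at h3
    unfold LC at h3 ⊢
    simp only [hs'] at h3
    exact h3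

end Base

theorem rx_down {K N LN : Type} [Field K] [NumberField K] [Field N] [NumberField N] [Field LN]
    [NumberField LN] [Algebra K N] [Algebra N LN] {Sg T : Finset (HeightOneSpectrum (𝓞 K))}
    {a b : K} {θN : LN} (hN : Cub N LN (algebraMap K N a) (algebraMap K N b) θN)
    (h2 : ∀ v : HeightOneSpectrum (𝓞 K), v.valuation K 2 < 1 → v ∈ Sg)
    (hD : 4 * a ^ 3 + 27 * b ^ 2 ≠ 0) (hreal : RealAt K N a b)
    (hram : ∀ V : HeightOneSpectrum (𝓞 N), dn K V ∉ Sg → ¬ Ram K V)
    (hdesc : ∀ v ∈ Sg, DescAt K N v a b) (r : ℕ) :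
    ∀ (M LM : Type) [Field M] [NumberField M] [Field LM] [NumberField LM] [Algebra K M]
      [Algebra M N] [IsScalarTower K M N] [Algebra M LM] (_ : IsGalois M N)
      (_ : Module.finrank M N = 2 ^ r) (θM : LM)
      (_ : Cub M LM (algebraMap K M a) (algebraMap K M b) θM) (e : Fin 3 → M), ev θM e ≠ 0 →
      IsSquare (Algebra.norm M (ev θM e)) →
      Rx K N LN Sg T a b θN (fun i => algebraMap M N (e i)) → Rx K M LM Sg T a b θM e := by
  induction r with
  | zero =>
    intro M LM _ _ _ _ _ _ _ _ hgal hr θM hM e hne hsq h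
    exact rx_base hgal (by rw [hr, pow_zero]) hD hM hN hne hsq h
  | succ r ih =>
    intro M LM _ _ _ _ _ _ _ _ hgal hr θM hM e hne hsq h
    have _ : FiniteDimensional M N := Module.Finite.of_restrictScalars_finite ℚ M N
    obtain ⟨k, hk1, hk2⟩ := exists_quad hr
    have _ : NumberField k := NumberField.of_module_finite M k
    let _ : Algebra K k := ((algebraMap M k).comp (algebraMap K M)).toAlgebra
    have _ : IsScalarTower K M k := IsScalarTower.of_algebraMap_eq fun x => rfl
    have _ : IsScalarTower K k N := IsScalarTower.of_algebraMap_eq fun x => by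
      change _ = algebraMap k N (algebraMap M k (algebraMap K M x))
      rw [← IsScalarTower.algebraMap_apply M k N, ← IsScalarTower.algebraMap_apply K M N]
    have hgk : IsGalois k N := IsGalois.tower_top_of_isGalois M k N
    have hab : ∀ x : K, algebraMap K k x = algebraMap M k (algebraMap K M x) :=
      IsScalarTower.algebraMap_apply K M k
    have hirr : ∀ t : k, t ^ 3 + algebraMap K k a * t + algebraMap K k b ≠ 0 := by
      intro t ht
      have h3 := congrArg (algebraMap k N) ht
      rw [map_add, map_add, map_mul, map_pow, ← IsScalarTower.algebraMap_apply,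
        ← IsScalarTower.algebraMap_apply, map_zero] at h3
      exact cub_noroot hN _ h3
    obtain ⟨Lk, _, _, _, θk, hk⟩ := H24PD.exists_cub (K := k) hirr
    have hk' : Cub k Lk (algebraMap M k (algebraMap K M a)) (algebraMap M k (algebraMap K M b)) θk := by
      rw [← hab, ← hab]
      exact hk
    obtain ⟨φ, hφ, hφθ⟩ := exists_lift hM hk'
    let _ : Algebra LM Lk := φ.toAlgebra
    let _ : Algebra M Lk := ((algebraMap k Lk).comp (algebraMap M k)).toAlgebra
    have _ : IsScalarTower M k Lk := IsScalarTower.of_algebraMap_eq fun x => rfl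
    have _ : IsScalarTower M LM Lk := IsScalarTower.of_algebraMap_eq fun x => (hφ x).symm
    have hev : algebraMap LM Lk (ev θM e) = ev θk (fun i => algebraMap M k (e i)) :=
      lift_ev φ hφ hφθ e
    have hnek : ev θk (fun i => algebraMap M k (e i)) ≠ 0 := by
      rw [← hev]
      exact (map_ne_zero _).2 hne
    have hsqk : IsSquare (Algebra.norm k (ev θk (fun i => algebraMap M k (e i)))) := by
      rw [Te_norm hk', Te_nf_map, ← Te_norm hM]
      exact hsq.map (algebraMap M k)
    have h3 := ih k Lk hgk hk2 θk hk (fun i => algebraMap M k (e i)) hnek hsqk (by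
      have e1 : (fun i => algebraMap k N (algebraMap M k (e i))) = fun i => algebraMap M N (e i) := by
        funext i
        rw [← IsScalarTower.algebraMap_apply M k N]
      rw [e1]
      exact h)
    have Q : QS M LM k Lk (algebraMap K M a) (algebraMap K M b) θM θk := ⟨hk1, hM, hk', hφθ⟩
    exact rx_step (N := N) h2 (hreal M k hk1) hram hdesc Q Q.fin2 hne hsq h3

end H42GN
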