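import Pool.Agent.H42.GN.Hf
import Pool.Agent.H76.MQ.Df
import Pool.Agent.H73.P2.Qs

/-!
ROW Hg (MP_78d38b_GN, section 2, helper42, about 200 lines): the special places over `M`.

PROOF. `w := dn M v`, `w1 := dn LM t1`, `w2 := dn LM t2`. val1: for `y ∈ LM`: `t1.valuation (algebraMap y) = (w1.valuation y)^e` (`HeightOneSpectrum.valuation_liesOver LN w1 t1 y`, `e` the ramification index). For `x ∈ M` with `w.valuation x = exp (-1)`:
`t1.valuation (algebraMap x) = v.valuation (algebraMap x) = w.valuation x = exp (-1)` (`ht.ord1`, `unr_val`), so `e = 1`. The same for `t2` (`ht.ord2`).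
res: `y ∈ LN` integral at `t1`: `ht.res1` gives `x ∈ N` integral at `v` with `t1 (y - x) < 1`, `unr_res` gives `x' ∈ M` with `v (x - x') < 1`, so `t1 (x - x') < 1`.
TwT: ne: `θ` is integral at `t1` (as in `Sp.frv` of Pool/Agent/H88/OD/Gc.lean: unit2 for x = 0 gives t2 (θ) = 1; if w1 = w2 then `w1 (θM) = 1` so `t1 (θ) = 1`), `x ∈ M` with `t1 (θ - x) < 1`, i.e. `w1 (θM - x) < 1`; but `t2 (x - θ) = 1` i.e. `w2 (x - θM) = 1`. dn1, dn2: `dn M (dn LM t) = dn M t = dn M (dn N t)` (dn_dn, dn_sq of H73P2; both are comaps).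
only: `w'` above `w`; a place `W` of `LN` above `w'` (exists_above), `dn N W` and `v` lie above `w`: `dn N W = gq g • v` (`H88OD.Gc_trans`), `s` from `hρ g⁻¹`: `dn N (s • W) = v`, so `s • W = t1` or `t2` and `dn LM (s • W) = dn LM W = w'` as `s` fixes `LM` (as in dn_gq of Pool/Agent/H88/OD/Ga.lean).
ord1, ord2: `ord` is `- log` of the valuation: val1, `ht.ord1`, unr_val. res1, unit2, der: val1, val2.
-/

set_option autoImplicit false
set_option linter.unusedSectionVars false
open scoped Classical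

open WithZero NumberField IsDedekindDomain H38RT
open H38T1 (SC sc scu rep eo la si OddP)

open H76PP (Cub LC ev scm dn)
open H76MQ (TwT)

namespace H42GN

open scoped Pointwise in
private theorem Hg_trans {K F : Type} [Field K] [NumberField K] [Field F] [NumberField F]
    [Algebra K F] [IsGalois K F] {v v' : HeightOneSpectrum (𝓞 F)} (h : dn K v = dn K v') :
    ∃ g : F ≃ₐ[K] F, v = H88OD.gq g • v' := by
  have hv : v'.asIdeal.under (𝓞 K) = v.asIdeal.under (𝓞 K) := by
    have h1 := congrArg HeightOneSpectrum.asIdeal h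
    exact h1.symm
  obtain ⟨g, hg⟩ := Algebra.IsInvariant.exists_smul_of_under_eq (𝓞 K) (𝓞 F) (F ≃ₐ[K] F)
    v'.asIdeal v.asIdeal hv
  refine ⟨g, ?_⟩
  apply HeightOneSpectrum.ext
  rw [hg]
  ext x
  rw [Ideal.mem_pointwise_smul_iff_inv_smul_mem]
  change _ ↔ H38T1.gO (H88OD.gq g)⁻¹ x ∈ v'.asIdeal
  have h2 : g⁻¹ • x = H38T1.gO (H88OD.gq g)⁻¹ x := by
    apply RingOfIntegers.ext
    rfl
  rw [h2]

private theorem Hg_ordval {E F : Type} [Field E] [Field F]
    {V : Valuation E (WithZero (Multiplicative ℤ))} {W : Valuation F (WithZero (Multiplicative ℤ))}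
    {x : E} {y : F} (hx : x ≠ 0) (hy : y ≠ 0) (h : ord V x = ord W y) : V x = W y := by
  unfold ord at h
  have h1 := (Valuation.ne_zero_iff V).2 hx
  have h2 := (Valuation.ne_zero_iff W).2 hy
  have h3 : log (V x) = log (W y) := by omega
  rw [← exp_log h1, ← exp_log h2, h3]

variable {M N LM LN : Type} [Field M] [NumberField M] [Field N] [NumberField N] [Field LM]
  [NumberField LM] [Field LN] [NumberField LN] [Algebra M N] [Algebra M LM] [Algebra N LN]
  [Algebra LM LN] [Algebra M LN] [IsScalarTower M N LN] [IsScalarTower M LM LN]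

private theorem Hg_N {v : HeightOneSpectrum (𝓞 N)} {t : HeightOneSpectrum (𝓞 LN)}
    (hord : ∀ x : N, x ≠ 0 → ord (t.valuation LN) (algebraMap N LN x) = ord (v.valuation N) x)
    (x : N) : t.valuation LN (algebraMap N LN x) = v.valuation N x := by
  by_cases hx : x = 0
  · rw [hx, map_zero, map_zero, map_zero]
  · exact Hg_ordval ((map_ne_zero _).2 hx) hx (hord x hx)

private theorem Hg_M (hgal : IsGalois M N) {v : HeightOneSpectrum (𝓞 N)}
    {t : HeightOneSpectrum (𝓞 LN)} (h : ∀ g : N ≃ₐ[M] N, H88OD.gq g • v = v → g = 1)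
    (hord : ∀ x : N, x ≠ 0 → ord (t.valuation LN) (algebraMap N LN x) = ord (v.valuation N) x)
    (x : M) : t.valuation LN (algebraMap LM LN (algebraMap M LM x)) =
      (dn M v).valuation M x := by
  rw [← IsScalarTower.algebraMap_apply M LM LN, IsScalarTower.algebraMap_apply M N LN,
    Hg_N hord, unr_val hgal h]

private theorem Hg_one (hgal : IsGalois M N) {v : HeightOneSpectrum (𝓞 N)}
    {t : HeightOneSpectrum (𝓞 LN)} (h : ∀ g : N ≃ₐ[M] N, H88OD.gq g • v = v → g = 1)
    (hord : ∀ x : N, x ≠ 0 → ord (t.valuation LN) (algebraMap N LN x) = ord (v.valuation N) x)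
    (y : LM) : t.valuation LN (algebraMap LM LN y) = (dn LM t).valuation LM y := by
  obtain ⟨e, he, h1⟩ := H76PP.ord_dn (K := LM) t
  obtain ⟨π, hπ⟩ := (dn M v).valuation_exists_uniformizer M
  have hπ0 : π ≠ 0 := by
    rintro rfl
    rw [map_zero] at hπ
    exact exp_ne_zero hπ.symm
  have h2 := Hg_M (LM := LM) hgal h hord π
  have h3 := h1 (algebraMap M LM π) ((map_ne_zero _).2 hπ0)
  unfold ord at h3
  rw [h2, hπ, log_exp] at h3
  have he1 : (e : ℤ) = 1 := by
    have h4 : (e : ℤ) ∣ 1 := ⟨_, by rw [← h3]; norm_num⟩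
    exact Int.eq_one_of_dvd_one (by positivity) h4
  by_cases hy : y = 0
  · rw [hy, map_zero, map_zero, map_zero]
  · refine Hg_ordval ((map_ne_zero _).2 hy) hy ?_
    rw [h1 y hy, he1, one_mul]

private theorem Hg_dn {v : HeightOneSpectrum (𝓞 N)} {t : HeightOneSpectrum (𝓞 LN)}
    (htv : dn N t = v) : dn M (dn LM t) = dn M v := by
  have h1 : dn M (dn LM t) = dn M t := H73P2.dn_dn t
  have h2 : dn M (dn N t) = dn M t := H73P2.dn_dn t
  rw [h1, ← h2, htv]

theorem tw_down (hgal : IsGalois M N) {A : M} {θM : LM} {v : HeightOneSpectrum (𝓞 N)}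
    {t1 t2 : HeightOneSpectrum (𝓞 LN)} (ht : TwT N (algebraMap M N A) (algebraMap LM LN θM) v t1 t2)
    (h : ∀ g : N ≃ₐ[M] N, H88OD.gq g • v = v → g = 1)
    (hρ : ∀ g : N ≃ₐ[M] N, ∃ s : LN ≃ₐ[ℚ] LN,
      (∀ x : N, s (algebraMap N LN x) = algebraMap N LN (g x)) ∧
      ∀ y : LM, s (algebraMap LM LN y) = algebraMap LM LN y) :
    TwT M A θM (dn M v) (dn LM t1) (dn LM t2) ∧
      (∀ y : LM, t1.valuation LN (algebraMap LM LN y) = (dn LM t1).valuation LM y) ∧
      (∀ y : LM, t2.valuation LN (algebraMap LM LN y) = (dn LM t2).valuation LM y) ∧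
      ∀ y : LN, t1.valuation LN y ≤ 1 →
        ∃ x : LM, (dn LM t1).valuation LM x ≤ 1 ∧ t1.valuation LN (y - algebraMap LM LN x) < 1 := by
  have val1 : ∀ y : LM, t1.valuation LN (algebraMap LM LN y) = (dn LM t1).valuation LM y :=
    Hg_one hgal h ht.ord1
  have val2 : ∀ y : LM, t2.valuation LN (algebraMap LM LN y) = (dn LM t2).valuation LM y :=
    Hg_one hgal h ht.ord2
  have M1 : ∀ x : M, (dn LM t1).valuation LM (algebraMap M LM x) = (dn M v).valuation M x :=
    fun x => by rw [← val1, Hg_M hgal h ht.ord1]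
  have M2 : ∀ x : M, (dn LM t2).valuation LM (algebraMap M LM x) = (dn M v).valuation M x :=
    fun x => by rw [← val2, Hg_M hgal h ht.ord2]
  -- approximation by elements of `M`
  have app : ∀ y : LN, t1.valuation LN y ≤ 1 → ∃ x : M, (dn M v).valuation M x ≤ 1 ∧
      t1.valuation LN (y - algebraMap LM LN (algebraMap M LM x)) < 1 := by
    intro y hy
    obtain ⟨z, hz, hz1⟩ := ht.res1 y hy
    obtain ⟨x, hx, hx1⟩ := unr_res hgal h z hz
    refine ⟨x, hx, ?_⟩
    have e : y - algebraMap LM LN (algebraMap M LM x) = (y - algebraMap N LN z) +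
        algebraMap N LN (z - algebraMap M N x) := by
      rw [map_sub, ← IsScalarTower.algebraMap_apply M LM LN, ← IsScalarTower.algebraMap_apply M N LN]
      ring
    rw [e]
    refine (t1.valuation LN).map_add_lt hz1 ?_
    rw [Hg_N ht.ord1]
    exact hx1
  have un2 : ∀ x : M, (dn M v).valuation M x ≤ 1 →
      (dn LM t2).valuation LM (algebraMap M LM x - θM) = 1 := by
    intro x hx
    have h1 := ht.unit2 (algebraMap M N x) (by rw [unr_val hgal h]; exact hx)
    rw [← val2, map_sub, ← IsScalarTower.algebraMap_apply M LM LN,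
      IsScalarTower.algebraMap_apply M N LN]
    exact h1
  refine ⟨?_, val1, val2, ?_⟩
  · refine ⟨⟨?_, Hg_dn ht.dn1, Hg_dn ht.dn2, ?_, ?_, ?_, ?_⟩, un2, ?_⟩
    · intro hE
      have h0 : (dn LM t2).valuation LM θM = 1 := by
        have h3 := un2 0 (by rw [map_zero]; exact zero_le)
        rw [map_zero, zero_sub, Valuation.map_neg] at h3
        exact h3
      have h1 : t1.valuation LN (algebraMap LM LN θM) ≤ 1 := by
        rw [val1, hE, h0]
      obtain ⟨x, hx, hx1⟩ := app _ h1
      rw [← map_sub, val1, hE, Valuation.map_sub_swap, un2 x hx] at hx1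
      exact lt_irrefl _ hx1
    · intro w hw
      obtain ⟨W, hW⟩ := H76PP.exists_above (L := LN) w
      have h1 : dn M v = dn M (dn N W) := by
        have h2 : dn M (dn N W) = dn M W := H73P2.dn_dn W
        have h3 : dn M (dn LM W) = dn M W := H73P2.dn_dn W
        rw [h2, ← h3, hW, hw]
      obtain ⟨g, hg⟩ := Hg_trans h1
      obtain ⟨s, hs1, hs2⟩ := hρ g
      have hs1' : ∀ x : N, s⁻¹ (algebraMap N LN x) = algebraMap N LN (g⁻¹ x) := by
        intro x
        have h4 : s (algebraMap N LN (g⁻¹ x)) = algebraMap N LN x := by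
          rw [hs1]
          exact congrArg _ (g.apply_symm_apply x)
        rw [← h4]
        exact s.symm_apply_apply _
      have hs2' : ∀ y : LM, s⁻¹ (algebraMap LM LN y) = algebraMap LM LN y := by
        intro y
        conv_lhs => rw [← hs2 y]
        exact s.symm_apply_apply _
      have h5 : dn N (s • W) = v := by
        rw [hg]
        apply HeightOneSpectrum.ext
        ext x
        change H38T1.gO s⁻¹ (algebraMap (𝓞 N) (𝓞 LN) x) ∈ W.asIdeal ↔
          algebraMap (𝓞 N) (𝓞 LN) (H38T1.gO (H88OD.gq g)⁻¹ x) ∈ W.asIdeal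
        have h6 : H38T1.gO s⁻¹ (algebraMap (𝓞 N) (𝓞 LN) x) =
            algebraMap (𝓞 N) (𝓞 LN) (H38T1.gO (H88OD.gq g)⁻¹ x) := by
          apply RingOfIntegers.ext
          rw [H38T1.gO_coe]
          exact hs1' (x : N)
        rw [h6]
      have h6 : dn LM (s • W) = w := by
        rw [← hW]
        apply HeightOneSpectrum.ext
        ext x
        change H38T1.gO s⁻¹ (algebraMap (𝓞 LM) (𝓞 LN) x) ∈ W.asIdeal ↔
          algebraMap (𝓞 LM) (𝓞 LN) x ∈ W.asIdeal
        have h7 : H38T1.gO s⁻¹ (algebraMap (𝓞 LM) (𝓞 LN) x) = algebraMap (𝓞 LM) (𝓞 LN) x := by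
          apply RingOfIntegers.ext
          rw [H38T1.gO_coe]
          exact hs2' (x : LM)
        rw [h7]
      rcases ht.only _ h5 with h7 | h7
      · left
        rw [← h6, h7]
      · right
        rw [← h6, h7]
    · intro x hx
      unfold ord
      rw [M1]
    · intro x hx
      unfold ord
      rw [M2]
    · intro y hy
      rw [← val1] at hy
      obtain ⟨x, hx, hx1⟩ := app _ hy
      refine ⟨x, hx, ?_⟩
      rw [← val1, map_sub]
      exact hx1
    · have h1 := ht.der
      rw [← val1, map_add, map_mul, map_pow, map_ofNat, ← IsScalarTower.algebraMap_apply M LM LN,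
        IsScalarTower.algebraMap_apply M N LN]
      exact h1
  · intro y hy
    obtain ⟨x, hx, hx1⟩ := app y hy
    refine ⟨algebraMap M LM x, ?_, hx1⟩
    rw [M1]
    exact hx

end H42GN
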