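import Pool.Agent.H38.OD.Na

/-!
MP_78d38b_GN, section 2 (FR) (helper42): definitions.  Paper: /team-store/H26_78d38b_GN.md, section 2.
-/

set_option autoImplicit false
set_option linter.unusedSectionVars false
open scoped Classical

open WithZero NumberField IsDedekindDomain H38RT
open H38T1 (SC sc scu rep eo la si Pri OddP tp unif)
open H76PP H73P2 H36CY H73CY H73ZO H30ZO H38OD

namespace H42GN

/-- The class of `e 0 + e 1 θ + e 2 θ^2` satisfies the local conditions at the places of `k` above
`Sg` and at the real places and it is even outside `Sg` and `T`. -/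
structure Rx (K k L : Type) [Field K] [NumberField K] [Field k] [NumberField k] [Field L]
    [NumberField L] [Algebra K k] [Algebra k L] (Sg T : Finset (HeightOneSpectrum (𝓞 K))) (a b : K)
    (θ : L) (e : Fin 3 → k) : Prop where
  ne : ev θ e ≠ 0
  sq : IsSquare (Algebra.norm k (ev θ e))
  even : ∀ w : HeightOneSpectrum (𝓞 L), dn K (dn k w) ∉ Sg → dn K (dn k w) ∉ T →
    eo w (sc (ev θ e)) = 0
  sg : ∀ u : HeightOneSpectrum (𝓞 k), dn K u ∈ Sg →
    LC (algebraMap k (u.adicCompletion k)) (algebraMap K k a) (algebraMap K k b) e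
  real : ∀ s : k →+* ℝ, LC s (algebraMap K k a) (algebraMap K k b) e

end H42GN
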