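import Pool.Agent.H88.GX.Ge
import Pool.Agent.H42.GN.Df

/-!
ROW Hi (MP_78d38b_GN, section 2, helper42, about 150 lines): reciprocity over the field `M` (between `K` and `N`, not Galois over `K`).

PROOF. `S₀ : H88GX.Ext M M LM a' b' θ` with `K = F = M`, `a' = algebraMap K M a`, ..: cub (`algebraMap M M = RingHom.id`: `Algebra.algebraMap_self`/`Algebra.id.map_eq_id`), gal: instance, ha, hb: `H76PP.val_le`, dne, dsq := hsq, `ρ := 1`, `ρF`: every `g : M ≃ₐ[M] M` is `1` (Subsingleton), `ρθ`: rfl.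
`SgM`, `TM`: finite sets of the places of `M` above `Sg`, `T` (as in `tv_up` of Pool/Agent/H38/OD/Nb.lean). `S₀.Ok D' SgM` with `D' = algebraMap K M D` (H76PP.val_one). The special primes `P i : H88GX.Sp S₀ SgM`: `v i, t1 i, t2 i`, out, tw := htw i (up to `algebraMap M M`), `fr`: g = 1 by Subsingleton.
`S₀.Y D' SgM (univ.image fun i => (P i).q) (sc (ev .. e))` from `he`: hh: `H30ZO.mem_HH` and he.sq; fin: `H30ZO.Wc_iff` (twisted cubic `h.twist`) and he.sg; inf: he.real; ev: he.even with `dn M (dn M w) = dn M w` (`H38OD.dn_same`): if `dn K (dn M w) ∈ T` then `dn M w = v i` by hT. `(P i).q = dn M (v i) = v i`.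
`H88GX.rec_R` for `P`, take the coefficient at `1`: `((P i).tr x * st ((P i).fl y)).coeff 1 = ((P i).tr x).coeff 1 * ((P i).fl y).coeff 1` (coeff_mul: sum over the group with one element), `((P i).tr x).coeff 1 = eo (t2 i) x` (`1 • x = x`), `((P i).fl x).coeff 1 = uu ..`. (Or use the private-free lemmas Ge_one, Ge_uu of Pool/Agent/H88/GX/Ge.lean directly.)
-/

set_option autoImplicit false
set_option linter.unusedSectionVars false
open scoped Classical

open WithZero NumberField IsDedekindDomain H38RT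
open H38T1 (SC sc scu rep eo la si OddP)

open H76PP (Cub LC ev scm dn)
open H76MQ (TwT)

namespace H42GN

theorem rec_M {K M LM : Type} [Field K] [NumberField K] [Field M] [NumberField M] [Field LM]
    [NumberField LM] [Algebra K M] [Algebra M LM] {a b D : K} {θ : LM}
    (h : Cub M LM (algebraMap K M a) (algebraMap K M b) θ)
    (ha : ∀ v : HeightOneSpectrum (𝓞 K), v.valuation K a ≤ 1)
    (hb : ∀ v : HeightOneSpectrum (𝓞 K), v.valuation K b ≤ 1) (hne : 4 * a ^ 3 + 27 * b ^ 2 ≠ 0)
    (hsq : ¬ IsSquare (algebraMap K M (-(4 * a ^ 3 + 27 * b ^ 2))))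
    {Sg T : Finset (HeightOneSpectrum (𝓞 K))} (hD : D ≠ 0)
    (h2 : ∀ v : HeightOneSpectrum (𝓞 K), v ∉ Sg → v.valuation K 2 = 1)
    (hd : ∀ v : HeightOneSpectrum (𝓞 K), v ∉ Sg → v.valuation K (4 * a ^ 3 + 27 * b ^ 2) = 1)
    (hDv : ∀ v : HeightOneSpectrum (𝓞 K), v ∉ Sg → v.valuation K D = 1)
    {ι : Type} [Fintype ι] (v : ι → HeightOneSpectrum (𝓞 M))
    (t1 t2 : ι → HeightOneSpectrum (𝓞 LM)) (hinj : Function.Injective v)
    (hout : ∀ i, dn K (v i) ∉ Sg) (hT : ∀ w : HeightOneSpectrum (𝓞 M), dn K w ∈ T → ∃ i, v i = w)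
    (htw : ∀ i, TwT M (algebraMap K M a) θ (v i) (t1 i) (t2 i)) {e e' : Fin 3 → M}
    (he : Rx K M LM Sg T (D ^ 2 * a) (D ^ 3 * b) (algebraMap M LM (algebraMap K M D) * θ) e)
    (he' : Rx K M LM Sg T (D ^ 2 * a) (D ^ 3 * b) (algebraMap M LM (algebraMap K M D) * θ) e') :
    ∑ i, (eo (t2 i) (sc (ev (algebraMap M LM (algebraMap K M D) * θ) e)) *
        H76OD.uu M (algebraMap K M a) θ (t1 i) (t2 i)
          (sc (ev (algebraMap M LM (algebraMap K M D) * θ) e')) +
      H76OD.uu M (algebraMap K M a) θ (t1 i) (t2 i)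
          (sc (ev (algebraMap M LM (algebraMap K M D) * θ) e)) *
        eo (t2 i) (sc (ev (algebraMap M LM (algebraMap K M D) * θ) e'))) = 0 := by
  have hdS : ∀ w : HeightOneSpectrum (𝓞 M), dn M w = w := by
    intro w
    apply HeightOneSpectrum.ext
    ext x
    rw [H73ZO.mem_dn]
    exact Iff.rfl
  have hD' : algebraMap K M D ≠ 0 := (map_ne_zero _).2 hD
  have hdM : 4 * (algebraMap K M a) ^ 3 + 27 * (algebraMap K M b) ^ 2 =
      algebraMap K M (4 * a ^ 3 + 27 * b ^ 2) := by
    simp only [map_add, map_mul, map_pow, map_ofNat]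
  obtain ⟨S, hSρ⟩ : ∃ S : H88GX.Ext M M LM (algebraMap K M a) (algebraMap K M b) θ,
      ∀ g : M ≃ₐ[M] M, S.ρ g = 1 :=
    ⟨{ cub := h
       gal := inferInstance
       ha := fun v => H76PP.val_le (ha (dn K v))
       hb := fun v => H76PP.val_le (hb (dn K v))
       dne := by
         rw [hdM]
         exact (map_ne_zero _).2 hne
       dsq := by
         rw [hdM, ← map_neg]
         exact hsq
       ρ := 1
       ρF := fun g x => by
         have h1 : g x = x := g.commutes x
         rw [h1]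
         rfl
       ρθ := fun _ => rfl }, fun _ => rfl⟩
  obtain ⟨SM, hSM⟩ : ∃ A : Finset (HeightOneSpectrum (𝓞 M)), ∀ v, v ∈ A ↔ dn K v ∈ Sg := by
    have hfin : {v : HeightOneSpectrum (𝓞 M) | dn K v ∈ Sg}.Finite := by
      have h1 : {v : HeightOneSpectrum (𝓞 M) | dn K v ∈ Sg} =
          ⋃ v ∈ Sg, {u : HeightOneSpectrum (𝓞 M) | dn K u = v} := by
        ext w
        simp only [Set.mem_iUnion, Set.mem_ofPred_eq]
        constructor
        · intro hw
          exact ⟨dn K w, hw, rfl⟩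
        · rintro ⟨v, hv, hw⟩
          rw [hw]
          exact hv
      rw [h1]
      exact Sg.finite_toSet.biUnion fun v _ => H76PP.fin_above v
    exact ⟨hfin.toFinset, fun v => by rw [Set.Finite.mem_toFinset]; exact Iff.rfl⟩
  have hok : S.Ok (algebraMap K M D) SM := by
    refine ⟨hD', ?_, ?_, ?_⟩
    · intro w hw
      rw [hSM] at hw
      have h1 := H76PP.val_one (L := M) (w := w) (h2 _ hw)
      rwa [map_ofNat] at h1
    · intro w hw
      rw [hSM] at hw
      rw [hdM]
      exact H76PP.val_one (L := M) (w := w) (hd _ hw)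
    · intro w hw
      rw [hSM] at hw
      exact H76PP.val_one (L := M) (w := w) (hDv _ hw)
  obtain ⟨P, hP1, hP2, hP3⟩ : ∃ P : ι → H88GX.Sp S SM, (∀ i, (P i).v = v i) ∧
      (∀ i, (P i).t1 = t1 i) ∧ (∀ i, (P i).t2 = t2 i) :=
    ⟨fun i =>
      { v := v i
        t1 := t1 i
        t2 := t2 i
        out := by
          rw [hdS, hSM]
          exact hout i
        tw := htw i
        fr := fun g _ => AlgEquiv.ext fun x => g.commutes x }, fun _ => rfl, fun _ => rfl,
      fun _ => rfl⟩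
  have hq : ∀ i, (P i).q = v i := by
    intro i
    unfold H88GX.Sp.q
    rw [hP1, hdS]
  have hinjq : Function.Injective fun i => (P i).q := by
    intro i j hij
    apply hinj
    have h1 : (P i).q = (P j).q := hij
    rwa [hq, hq] at h1
  have hY : ∀ e : Fin 3 → M,
      Rx K M LM Sg T (D ^ 2 * a) (D ^ 3 * b) (algebraMap M LM (algebraMap K M D) * θ) e →
      S.Y (algebraMap K M D) SM (Finset.univ.image fun i => (P i).q)
        (sc (ev (algebraMap M LM (algebraMap K M D) * θ) e)) := by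
    intro e he
    have ht := h.twist hD'
    have e1 : algebraMap K M (D ^ 2 * a) = (algebraMap K M D) ^ 2 * algebraMap K M a := by
      rw [map_mul, map_pow]
    have e2 : algebraMap K M (D ^ 3 * b) = (algebraMap K M D) ^ 3 * algebraMap K M b := by
      rw [map_mul, map_pow]
    refine ⟨(H30ZO.mem_HH he.ne).2 he.sq, ?_, ?_, ?_⟩
    · intro w hw
      rw [hdS, hSM] at hw
      have h1 := he.sg w hw
      rw [e1, e2] at h1
      exact (H30ZO.Wc_iff _ ht he.ne).2 h1
    · intro s
      have h1 := he.real s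
      rw [e1, e2] at h1
      exact (H30ZO.Wc_iff _ ht he.ne).2 h1
    · intro w hw hw'
      rw [hdS, hSM] at hw
      rw [hdS] at hw'
      refine he.even w hw ?_
      intro h1
      obtain ⟨i, hi⟩ := hT _ h1
      exact hw' (Finset.mem_image.2 ⟨i, Finset.mem_univ _, by rw [hq, hi]⟩)
  let _ : Fintype (M ≃ₐ[M] M) := Fintype.ofFinite _
  have hx := hY e he
  have hy := hY e' he'
  have hrec := H88GX.Ge_one hok P hinjq hx hy
  rw [← hrec]
  refine Finset.sum_congr rfl fun i _ => ?_
  have h1 := H88GX.Ge_uu (P i) hok.two 1 hx.hh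
  have h3 := H88GX.Ge_uu (P i) hok.two 1 hy.hh
  have hs : ∀ f : (M ≃ₐ[M] M) → ZMod 2, ∑ g, f g = f 1 := by
    intro f
    refine Finset.sum_eq_single 1 (fun g _ hg => ?_) (fun hg => absurd (Finset.mem_univ _) hg)
    exact absurd (AlgEquiv.ext fun x => g.commutes x) hg
  rw [hs, ← h1.1, ← h1.2, ← h3.1, ← h3.2, hSρ, one_smul, one_smul, hP2, hP3]
  rfl

end H42GN
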