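import Pool.Agent.H42.GN.Hh
import Pool.Agent.H76.OD.Rc

/-!
MP_78d38b_GN, section 2 (helper42): the corrected Legendre class over `M` and `N`.
-/

set_option autoImplicit false
set_option linter.unusedSectionVars false
open scoped Classical

open WithZero NumberField IsDedekindDomain H38RT
open H38T1 (SC sc scu rep eo la si OddP)
open H76PP (Cub LC ev scm dn)

namespace H42GN

variable {M N LM LN : Type} [Field M] [NumberField M] [Field N] [NumberField N] [Field LM]
  [NumberField LM] [Field LN] [NumberField LN] [Algebra M N] [Algebra M LM] [Algebra N LN]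
  [Algebra LM LN] [Algebra M LN] [IsScalarTower M N LN] [IsScalarTower M LM LN]

theorem uu_down {A : M} {θM : LM} {t1 t2 : HeightOneSpectrum (𝓞 LN)} (ho : OddP t1)
    (hder : t1.valuation LN (3 * algebraMap LM LN θM ^ 2 + algebraMap N LN (algebraMap M N A)) = 1)
    (hv1 : ∀ y : LM, t1.valuation LN (algebraMap LM LN y) = (dn LM t1).valuation LM y)
    (hv2 : ∀ y : LM, t2.valuation LN (algebraMap LM LN y) = (dn LM t2).valuation LM y)
    (hres : ∀ y : LN, t1.valuation LN y ≤ 1 →
      ∃ x : LM, (dn LM t1).valuation LM x ≤ 1 ∧ t1.valuation LN (y - algebraMap LM LN x) < 1)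
    {x : LM} (hx : x ≠ 0) (he : eo t1 (sc (algebraMap LM LN x)) = 0) :
    H76OD.uu N (algebraMap M N A) (algebraMap LM LN θM) t1 t2 (sc (algebraMap LM LN x)) =
      H76OD.uu M A θM (dn LM t1) (dn LM t2) (sc x) := by
  have e1 : (3 * algebraMap LM LN θM ^ 2 + algebraMap N LN (algebraMap M N A) : LN) =
      algebraMap LM LN (3 * θM ^ 2 + algebraMap M LM A) := by
    rw [map_add, map_mul, map_pow, map_ofNat, ← IsScalarTower.algebraMap_apply M N LN,
      ← IsScalarTower.algebraMap_apply M LM LN]
  have hz0 : (3 * θM ^ 2 + algebraMap M LM A : LM) ≠ 0 := by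
    intro h0
    rw [e1, h0, map_zero, map_zero] at hder
    exact zero_ne_one hder
  have hze : eo t1 (sc (algebraMap LM LN (3 * θM ^ 2 + algebraMap M LM A))) = 0 := by
    rw [H38T1.eo_sc ((map_ne_zero _).2 hz0)]
    have h5 : ord (t1.valuation LN) (algebraMap LM LN (3 * θM ^ 2 + algebraMap M LM A)) = 0 := by
      unfold ord
      rw [← e1, hder]
      rfl
    rw [h5]
    rfl
  unfold H76OD.uu H76OD.nuw
  rw [e1, la_down ho hv1 hres hx he, la_down ho hv1 hres hz0 hze, eo_down hv2 hx]

end H42GN
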