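import Mathlib

/-!
ROW Hk (MP_78d38b_GN, section 2, helper42, about 90 lines): an isotropic space has at most half the dimension.

PROOF. `V` is a `ZMod 2`-vector space (`x + x = 0`: its image under all `u i, r i` is zero). `Φ : V → (ι → ZMod 2) × (ι → ZMod 2)` injective, so `V` is finite. The map `B : (ι → ZMod 2) × (ι → ZMod 2) → (V →+ ZMod 2)`, `(p, q) ↦ (x ↦ ∑ i, (p i * r i x + q i * u i x))` is onto
(a functional `l` on `V` extends through the injective `Φ` to `(ι → ZMod 2) × (ι → ZMod 2)` (LinearMap.exists_extend / exists_leftInverse) and is then given by its values on the basis), and `Φ y` is in its kernel for every `y` (hrec). So `4^|ι| = |ker B| * |V →+ ZMod 2| ≥ |V| * |V|` (`Subspace.dual_finrank_eq`).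
-/

set_option autoImplicit false
open scoped Classical

namespace H42GN

private noncomputable def hkB (ι : Type) [Fintype ι] :
    ((ι → ZMod 2) × (ι → ZMod 2)) →ₗ[ZMod 2] ((ι → ZMod 2) × (ι → ZMod 2)) →ₗ[ZMod 2] ZMod 2 :=
  LinearMap.mk₂ (ZMod 2) (fun w v => ∑ i, (w.1 i * v.2 i + w.2 i * v.1 i))
    (by
      intro a b c
      rw [← Finset.sum_add_distrib]
      refine Finset.sum_congr rfl fun i _ => ?_
      simp only [Prod.fst_add, Prod.snd_add, Pi.add_apply]
      ring)
    (by
      intro c a b
      rw [smul_eq_mul, Finset.mul_sum]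
      refine Finset.sum_congr rfl fun i _ => ?_
      simp only [Prod.smul_fst, Prod.smul_snd, Pi.smul_apply, smul_eq_mul]
      ring)
    (by
      intro a b c
      rw [← Finset.sum_add_distrib]
      refine Finset.sum_congr rfl fun i _ => ?_
      simp only [Prod.fst_add, Prod.snd_add, Pi.add_apply]
      ring)
    (by
      intro c a b
      rw [smul_eq_mul, Finset.mul_sum]
      refine Finset.sum_congr rfl fun i _ => ?_
      simp only [Prod.smul_fst, Prod.smul_snd, Pi.smul_apply, smul_eq_mul]
      ring)

private theorem hkB_apply {ι : Type} [Fintype ι] (w v : (ι → ZMod 2) × (ι → ZMod 2)) :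
    hkB ι w v = ∑ i, (w.1 i * v.2 i + w.2 i * v.1 i) := rfl

private theorem hkB_inj (ι : Type) [Fintype ι] : Function.Injective (hkB ι) := by
  rw [injective_iff_map_eq_zero]
  intro w hw
  have h1 : ∀ i, w.1 i = 0 := by
    intro i
    have h := LinearMap.congr_fun hw ((0 : ι → ZMod 2), (Pi.single i 1 : ι → ZMod 2))
    rw [hkB_apply, LinearMap.zero_apply] at h
    rw [Finset.sum_eq_single i] at h
    · simpa using h
    · intro j _ hj
      simp [Pi.single_eq_of_ne hj]
    · intro hi
      exact absurd (Finset.mem_univ i) hi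
  have h2 : ∀ i, w.2 i = 0 := by
    intro i
    have h := LinearMap.congr_fun hw ((Pi.single i 1 : ι → ZMod 2), (0 : ι → ZMod 2))
    rw [hkB_apply, LinearMap.zero_apply] at h
    rw [Finset.sum_eq_single i] at h
    · simpa using h
    · intro j _ hj
      simp [Pi.single_eq_of_ne hj]
    · intro hi
      exact absurd (Finset.mem_univ i) hi
  exact Prod.ext (funext h1) (funext h2)

private theorem hk_dim {ι : Type} [Fintype ι]
    (R : Submodule (ZMod 2) ((ι → ZMod 2) × (ι → ZMod 2)))
    (h : ∀ w ∈ R, ∀ v ∈ R, hkB ι w v = 0) :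
    Module.finrank (ZMod 2) R ≤ Fintype.card ι := by
  haveI : Fact (Nat.Prime 2) := ⟨Nat.prime_two⟩
  have h0 := Subspace.finrank_add_finrank_dualAnnihilator_eq (K := ZMod 2) R
  have h1 : Module.finrank (ZMod 2) ((ι → ZMod 2) × (ι → ZMod 2))
      = Fintype.card ι + Fintype.card ι := by
    rw [Module.finrank_prod, Module.finrank_fintype_fun_eq_card]
  have hmem : ∀ w : R, ((hkB ι).domRestrict R) w ∈ R.dualAnnihilator := by
    intro w
    rw [Submodule.mem_dualAnnihilator]
    intro v hv
    exact h w.1 w.2 v hv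
  let g : R →ₗ[ZMod 2] R.dualAnnihilator :=
    LinearMap.codRestrict R.dualAnnihilator ((hkB ι).domRestrict R) hmem
  have hg : Function.Injective g := by
    intro a b hab
    have h3 := congrArg Subtype.val hab
    have h4 : hkB ι a.1 = hkB ι b.1 := h3
    exact Subtype.ext (hkB_inj ι h4)
  have h5 := LinearMap.finrank_le_finrank_of_injective hg
  rw [h1] at h0
  omega

theorem iso_card {V ι : Type} [AddCommGroup V] [Fintype ι] (u r : ι → V →+ ZMod 2)
    (hinj : ∀ x, (∀ i, u i x = 0 ∧ r i x = 0) → x = 0)
    (hrec : ∀ x y, ∑ i, (u i x * r i y + r i x * u i y) = 0) :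
    Finite V ∧ Nat.card V ≤ 2 ^ Fintype.card ι := by
  haveI : Fact (Nat.Prime 2) := ⟨Nat.prime_two⟩
  let f : V →+ ((ι → ZMod 2) × (ι → ZMod 2)) :=
    { toFun := fun x => (fun i => u i x, fun i => r i x)
      map_zero' := by
        refine Prod.ext (funext fun i => ?_) (funext fun i => ?_)
        · exact map_zero (u i)
        · exact map_zero (r i)
      map_add' := by
        intro x y
        refine Prod.ext (funext fun i => ?_) (funext fun i => ?_)
        · exact map_add (u i) x y
        · exact map_add (r i) x y }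
  have hf : Function.Injective f := by
    rw [injective_iff_map_eq_zero]
    intro x hx
    apply hinj
    intro i
    exact ⟨congrFun (congrArg Prod.fst hx) i, congrFun (congrArg Prod.snd hx) i⟩
  have hfin : Finite V := Finite.of_injective f hf
  refine ⟨hfin, ?_⟩
  let R : Submodule (ZMod 2) ((ι → ZMod 2) × (ι → ZMod 2)) := AddSubgroup.toZModSubmodule 2 f.range
  have hR : ∀ w ∈ R, ∀ v ∈ R, hkB ι w v = 0 := by
    intro w hw v hv
    obtain ⟨x, rfl⟩ := (AddSubgroup.mem_toZModSubmodule (n := 2)).1 hw
    obtain ⟨y, rfl⟩ := (AddSubgroup.mem_toZModSubmodule (n := 2)).1 hv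
    exact hrec x y
  have hd := hk_dim R hR
  have hc : Nat.card V = Nat.card R := by
    apply Nat.card_congr
    exact (Equiv.ofInjective f hf)
  have hc2 : Nat.card R = 2 ^ Module.finrank (ZMod 2) R := by
    haveI : Fintype R := Fintype.ofFinite R
    rw [Nat.card_eq_fintype_card, Module.card_eq_pow_finrank (K := ZMod 2), ZMod.card]
  rw [hc, hc2]
  exact Nat.pow_le_pow_right (by norm_num) hd

end H42GN
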