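import Pool.Agent.H88.GX.Gt

/-!
ROW Hl (MP_78d38b_GN, section 2, helper42, about 150 lines): the places of `M` above `T` and the coordinates of the classes fixed by `P`.

PROOF. TM is the set of the places `dn M (gq g • Q.v)`, `Q ∈ T`, `g ∈ G`. For `p ∈ P`: `hPM` gives `h : N ≃ₐ[M] N` with `h.restrictScalars K = p`, `dn M (gq (p * g) • Q.v) = dn M (gq p • gq g • Q.v) = dn M (gq g • Q.v)` (`H88OD.dn_gq h`, `gq h = gq p` as automorphisms over the rationals).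
card_TM: the map `T × (G ⧸ P) → places`, `(Q, g P) ↦ dn M (gq g⁻¹ • Q.v)` is well defined (Quotient.lift; `(g p)⁻¹ = p⁻¹ g⁻¹`) with range TM: `ncard ≤ T.card * P.index` (Set.ncard_le of the image of a finite type: `Set.ncard_range_le`/`Nat.card_range_le`).
coeff_eq: `dn M (gq g • Q.v) = dn M (gq g' • Q'.v)` gives `Q.q = Q'.q` (dn_dn; dn_gq), so `Q = Q'` (hinj); by `H88OD.Gc_trans` over `M` there is `h : N ≃ₐ[M] N` with `gq g • Q.v = gq h • gq g' • Q.v`, so with `p := h.restrictScalars K ∈ P`: `gq ((p g')⁻¹ g) • Q.v = Q.v`, `g = p * g'` (Q.frv).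
`Q.tr c`, `c = S.ρ p • c`: `(Q.tr c).coeff (p * g') = (single p 1 * Q.tr c).coeff (p * g') = (Q.tr c).coeff g'` (tr_smul, coeff_single_mul). The same for `fl`.
-/

set_option autoImplicit false
set_option linter.unusedSectionVars false
open scoped Classical

open WithZero NumberField IsDedekindDomain H38RT
open H38T1 (SC sc scu rep eo la si OddP)

open H76PP (Cub LC ev scm dn)

namespace H42GN

variable {K M N LN : Type} [Field K] [NumberField K] [Field M] [NumberField M] [Field N]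
  [NumberField N] [Field LN] [NumberField LN] [Algebra K N] [Algebra K M] [Algebra M N]
  [IsScalarTower K M N] [Algebra N LN] {a b : K} {θ : LN} {S : H88GX.Ext K N LN a b θ}
  {Sg : Finset (HeightOneSpectrum (𝓞 K))}

private theorem hl_mul (g g' : N ≃ₐ[K] N) :
    H88OD.gq (g * g') = H88OD.gq g * H88OD.gq g' := rfl

private theorem hl_gq (h : N ≃ₐ[M] N) :
    H88OD.gq (h.restrictScalars K) = (H88OD.gq h : N ≃ₐ[ℚ] N) := rfl

private theorem hl_dd (v : HeightOneSpectrum (𝓞 N)) : dn K (dn M v) = dn K v := by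
  apply HeightOneSpectrum.ext
  ext x
  change algebraMap (𝓞 M) (𝓞 N) (algebraMap (𝓞 K) (𝓞 M) x) ∈ v.asIdeal ↔
    algebraMap (𝓞 K) (𝓞 N) x ∈ v.asIdeal
  have h : algebraMap (𝓞 M) (𝓞 N) (algebraMap (𝓞 K) (𝓞 M) x) = algebraMap (𝓞 K) (𝓞 N) x := by
    apply RingOfIntegers.ext
    exact (IsScalarTower.algebraMap_apply K M N (x : K)).symm
  rw [h]

private theorem hl_key (P : Subgroup (N ≃ₐ[K] N))
    (hPM : ∀ p ∈ P, ∃ h : N ≃ₐ[M] N, h.restrictScalars K = p) {p : N ≃ₐ[K] N} (hp : p ∈ P)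
    (v : HeightOneSpectrum (𝓞 N)) : dn M (H88OD.gq p • v) = dn M v := by
  obtain ⟨h, rfl⟩ := hPM p hp
  rw [hl_gq]
  exact H88OD.dn_gq h v

theorem card_TM (S : H88GX.Ext K N LN a b θ) (P : Subgroup (N ≃ₐ[K] N))
    (hPM : ∀ p ∈ P, ∃ h : N ≃ₐ[M] N, h.restrictScalars K = p) (T : Finset (H88GX.Sp S Sg)) :
    {w : HeightOneSpectrum (𝓞 M) | ∃ Q ∈ T, ∃ g : N ≃ₐ[K] N, w = dn M (H88OD.gq g • Q.v)}.Finite ∧
      {w : HeightOneSpectrum (𝓞 M) | ∃ Q ∈ T, ∃ g : N ≃ₐ[K] N,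
        w = dn M (H88OD.gq g • Q.v)}.ncard ≤ P.index * T.card := by
  let F0 : T × ((N ≃ₐ[K] N) ⧸ P) → HeightOneSpectrum (𝓞 M) := fun z =>
    Quotient.liftOn' z.2 (fun g => dn M (H88OD.gq g⁻¹ • z.1.1.v)) (by
      intro g₁ g₂ h
      rw [QuotientGroup.leftRel_apply] at h
      change dn M (H88OD.gq g₁⁻¹ • z.1.1.v) = dn M (H88OD.gq g₂⁻¹ • z.1.1.v)
      have e : g₂⁻¹ = (g₁⁻¹ * g₂)⁻¹ * g₁⁻¹ := by group
      rw [e, hl_mul, mul_smul, hl_key P hPM (P.inv_mem h)])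
  have hsub : {w : HeightOneSpectrum (𝓞 M) | ∃ Q ∈ T, ∃ g : N ≃ₐ[K] N,
      w = dn M (H88OD.gq g • Q.v)} ⊆ F0 '' Set.univ := by
    rintro w ⟨Q, hQ, g, rfl⟩
    refine ⟨(⟨Q, hQ⟩, QuotientGroup.mk g⁻¹), Set.mem_univ _, ?_⟩
    change dn M (H88OD.gq (g⁻¹)⁻¹ • Q.v) = _
    rw [inv_inv]
  have hfin : Finite (N ≃ₐ[K] N) := by
    have : FiniteDimensional K N := FiniteDimensional.right ℚ K N
    infer_instance
  have hf : (F0 '' Set.univ).Finite := Set.finite_univ.image F0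
  refine ⟨hf.subset hsub, (Set.ncard_le_ncard hsub hf).trans ?_⟩
  refine (Set.ncard_image_le Set.finite_univ).trans ?_
  have hT : Nat.card T = T.card := by
    rw [Nat.card_eq_fintype_card, Fintype.card_coe]
  rw [Set.ncard_univ, Nat.card_prod, mul_comm, hT]
  exact le_rfl

theorem coeff_eq (hgal : IsGalois M N) (P : Subgroup (N ≃ₐ[K] N))
    (hMP : ∀ h : N ≃ₐ[M] N, h.restrictScalars K ∈ P) {c : SC LN} (hc : ∀ p ∈ P, S.ρ p • c = c)
    {Q Q' : H88GX.Sp S Sg} (hQ : Q.q = Q'.q → Q = Q') {g g' : N ≃ₐ[K] N}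
    (h : dn M (H88OD.gq g • Q.v) = dn M (H88OD.gq g' • Q'.v)) :
    (Q.tr c).coeff g = (Q'.tr c).coeff g' ∧ (Q.fl c).coeff g = (Q'.fl c).coeff g' := by
  have h1 : Q.q = Q'.q := by
    have h2 := congrArg (dn K) h
    rw [hl_dd, hl_dd, H88OD.dn_gq, H88OD.dn_gq] at h2
    exact h2
  obtain rfl := hQ h1
  obtain ⟨k, hk⟩ := H88GX.Gc_trans h
  have hp := hMP k
  set p : N ≃ₐ[K] N := k.restrictScalars K with hpd
  have hk' : H88OD.gq g • Q.v = H88OD.gq p • H88OD.gq g' • Q.v := hk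
  have hfr : H88OD.gq ((p * g')⁻¹ * g) • Q.v = Q.v := by
    rw [hl_mul, mul_smul, hk', ← mul_smul, ← mul_smul, ← hl_mul, ← hl_mul]
    have e : (p * g')⁻¹ * p * g' = 1 := by group
    rw [e]
    have e1 : H88OD.gq (1 : N ≃ₐ[K] N) = 1 := rfl
    rw [e1, one_smul]
  have hg : g = p * g' := by
    have h3 := Q.frv hfr
    rw [inv_mul_eq_one] at h3
    exact h3.symm
  subst hg
  have hcp := hc p hp
  constructor
  · have e := Q.tr_smul p c
    rw [hcp] at e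
    have e2 := congrArg (fun z => z.coeff (p * g')) e
    simp only [H88OD.coeff_single_mul] at e2
    rw [e2, inv_mul_cancel_left]
  · have e := Q.fl_smul p c
    rw [hcp] at e
    have e2 := congrArg (fun z => z.coeff (p * g')) e
    simp only [H88OD.coeff_single_mul] at e2
    rw [e2, inv_mul_cancel_left]

end H42GN
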