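import Pool.Agent.H42.GN.Ha
import Pool.Agent.H42.GN.Hd
import Pool.Agent.H42.GN.Hg
import Pool.Agent.H42.GN.Hj
import Pool.Agent.H42.GN.Hi
import Pool.Agent.H42.GN.Hk
import Pool.Agent.H42.GN.Hl
import Pool.Agent.H88.GX.Gb
import Pool.Agent.H88.GX.Ge
import Pool.Agent.H38.OD.Nb

/-!
MP_78d38b_GN, section 2 (helper42): (FR), the bound for the classes fixed by a subgroup of two-power order.
-/

set_option autoImplicit false
set_option linter.unusedSectionVars false
open scoped Classical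

open WithZero NumberField IsDedekindDomain H38RT
open H38T1 (SC sc scu rep eo la si OddP)
open H76PP (Cub LC ev scm dn Te_nf)
open H36CY (DescAt)
open H30ZO (RealAt)

namespace H42GN

variable {K N LN : Type} [Field K] [NumberField K] [Field N] [NumberField N] [Field LN]
  [NumberField LN] [Algebra K N] [Algebra N LN] {a b : K} {θ : LN} {S : H88GX.Ext K N LN a b θ}
  {Sg : Finset (HeightOneSpectrum (𝓞 K))} {D : K}

/-- The conditions over `N` in coordinates. -/
theorem rx_N {M : Type} [Field M] [Algebra M N] (hD : D ≠ 0)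
    {T : Finset (HeightOneSpectrum (𝓞 K))} {e : Fin 3 → M}
    (hne : ev (algebraMap N LN (algebraMap K N D) * θ) (fun i => algebraMap M N (e i)) ≠ 0)
    (h : S.Y D Sg T
      (sc (ev (algebraMap N LN (algebraMap K N D) * θ) (fun i => algebraMap M N (e i))))) :
    Rx K N LN Sg T (D ^ 2 * a) (D ^ 3 * b) (algebraMap N LN (algebraMap K N D) * θ)
      (fun i => algebraMap M N (e i)) := by
  have hcub := H88GX.Gb_cub S hD
  refine ⟨hne, (H30ZO.mem_HH hne).1 h.hh, fun w h1 h2 => h.ev w h1 h2, fun u hu => ?_, fun s => ?_⟩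
  · exact (H30ZO.Wc_iff _ hcub hne).1 (h.fin u hu)
  · exact (H30ZO.Wc_iff _ hcub hne).1 (h.inf s)

section Aux

variable {M : Type} [Field M] [NumberField M] [Algebra K M] [Algebra M N] [IsScalarTower K M N]

theorem gq_one (Q : H88GX.Sp S Sg) (g : N ≃ₐ[K] N) (h : N ≃ₐ[M] N)
    (hh : H88OD.gq h • (H88OD.gq g • Q.v) = H88OD.gq g • Q.v) : h = 1 := by
  have e1 : H88OD.gq h = H88OD.gq (h.restrictScalars K) := rfl
  have e2 : H88OD.gq (g⁻¹ * h.restrictScalars K * g) • Q.v = Q.v := by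
    have e3 : H88OD.gq (g⁻¹ * h.restrictScalars K * g) =
      (H88OD.gq g)⁻¹ * H88OD.gq (h.restrictScalars K) * H88OD.gq g := rfl
    rw [e3, mul_smul, mul_smul, ← e1, hh, inv_smul_smul]
  have e4 := Q.frv e2
  have e5 : h.restrictScalars K = 1 := by
    have e6 : h.restrictScalars K = g * (g⁻¹ * h.restrictScalars K * g) * g⁻¹ := by group
    rw [e6, e4, mul_one, mul_inv_cancel]
  apply AlgEquiv.ext
  intro x
  exact congrArg (fun t : N ≃ₐ[K] N => t x) e5

theorem card_fix_aux (hgal : IsGalois M N) {r : ℕ} (hr : Module.finrank M N = 2 ^ r)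
    (hok : S.Ok D Sg) (hreal : RealAt K N a b)
    (hdesc : ∀ v ∈ Sg, DescAt K N v (D ^ 2 * a) (D ^ 3 * b))
    (hram : ∀ V : HeightOneSpectrum (𝓞 N), dn K V ∉ Sg → ¬ H73P2.Ram K V)
    (T : Finset (H88GX.Sp S Sg)) (hinj : ∀ Q ∈ T, ∀ Q' ∈ T, Q.q = Q'.q → Q = Q')
    (hgood : ∀ c, S.Y D Sg (T.image H88GX.Sp.q) c → (∀ Q ∈ T, Q.tr c = 0 ∧ Q.fl c = 0) → c = 0)
    (P : Subgroup (N ≃ₐ[K] N)) (hMP : ∀ h : N ≃ₐ[M] N, h.restrictScalars K ∈ P)
    (hPM : ∀ p ∈ P, ∃ h : N ≃ₐ[M] N, h.restrictScalars K = p)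
    (hE : ∀ c : SC LN, c ∈ H30ZO.HH N LN → (∀ g ∈ P, S.ρ g • c = c) → ∃ e : Fin 3 → M,
      ev (algebraMap N LN (algebraMap K N D) * θ) (fun i => algebraMap M N (e i)) ≠ 0 ∧
      sc (ev (algebraMap N LN (algebraMap K N D) * θ) (fun i => algebraMap M N (e i))) = c ∧
      IsSquare (Te_nf (algebraMap K M (D ^ 2 * a)) (algebraMap K M (D ^ 3 * b)) e)) :
    Nat.card {c : SC LN // S.Y D Sg (T.image H88GX.Sp.q) c ∧ ∀ g ∈ P, S.ρ g • c = c} ≤
      2 ^ (P.index * T.card) := by
  have hD := hok.ne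
  have hDM : algebraMap K M D ≠ 0 := (map_ne_zero _).2 hD
  have hab : ∀ x : K, algebraMap K N x = algebraMap M N (algebraMap K M x) :=
    IsScalarTower.algebraMap_apply K M N
  -- the cubic field over `M`
  let _ : Algebra M LN := ((algebraMap N LN).comp (algebraMap M N)).toAlgebra
  have _ : IsScalarTower M N LN := IsScalarTower.of_algebraMap_eq fun x => rfl
  have hcubN : Cub N LN (algebraMap M N (algebraMap K M a)) (algebraMap M N (algebraMap K M b)) θ := by
    rw [← hab, ← hab]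
    exact S.cub
  obtain ⟨LM, _, _, _, _, _, θM, hM, hθM⟩ := H73P2.exists_sub hcubN
  have hMD : Cub M LM (algebraMap K M (D ^ 2 * a)) (algebraMap K M (D ^ 3 * b))
      (algebraMap M LM (algebraMap K M D) * θM) := by
    have h1 := hM.twist hDM
    rw [map_mul, map_pow, map_mul, map_pow]
    exact h1
  have hML : ∀ x : M, algebraMap LM LN (algebraMap M LM x) = algebraMap N LN (algebraMap M N x) :=
    fun x => by rw [← IsScalarTower.algebraMap_apply M LM LN, ← IsScalarTower.algebraMap_apply M N LN]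
  have hθD : algebraMap LM LN (algebraMap M LM (algebraMap K M D) * θM) =
      algebraMap N LN (algebraMap K N D) * θ := by
    rw [map_mul, hML, hθM, ← hab]
  have hev : ∀ e : Fin 3 → M, algebraMap LM LN (ev (algebraMap M LM (algebraMap K M D) * θM) e) =
      ev (algebraMap N LN (algebraMap K N D) * θ) (fun i => algebraMap M N (e i)) :=
    fun e => lift_ev (algebraMap LM LN) hML hθD e
  -- the places
  obtain ⟨hfin, hcard⟩ := card_TM (M := M) S P hPM T
  obtain ⟨TM, hTM⟩ : ∃ TM : Set (HeightOneSpectrum (𝓞 M)), TM = {w | ∃ Q ∈ T, ∃ g : N ≃ₐ[K] N,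
    w = dn M (H88OD.gq g • Q.v)} := ⟨_, rfl⟩
  rw [← hTM] at hfin hcard
  let _ : Fintype TM := hfin.fintype
  have hmem : ∀ w : TM, ∃ Q : H88GX.Sp S Sg, ∃ g : N ≃ₐ[K] N, Q ∈ T ∧
      (w : HeightOneSpectrum (𝓞 M)) = dn M (H88OD.gq g • Q.v) := by
    intro w
    obtain ⟨w, hw⟩ := w
    have h1 := hw
    rw [hTM] at h1
    obtain ⟨Q, hQ, g, hg⟩ := h1
    exact ⟨Q, g, hQ, hg⟩
  choose Q g hQT hQg using hmem
  have hρL : ∀ h : N ≃ₐ[M] N, ∃ s : LN ≃ₐ[ℚ] LN,
      (∀ x : N, s (algebraMap N LN x) = algebraMap N LN (h x)) ∧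
      ∀ y : LM, s (algebraMap LM LN y) = algebraMap LM LN y := by
    intro h
    refine ⟨S.ρ (h.restrictScalars K), fun x => S.ρF _ x, fun y => ?_⟩
    have h1 : y = ev θM (fun i => hM.co i y) := hM.eq_co y
    have h2 : algebraMap LM LN y = ev θ (fun i => algebraMap M N (hM.co i y)) := by
      conv_lhs => rw [h1]
      exact lift_ev (algebraMap LM LN) hML hθM _
    have h3 : ∀ x : M, h (algebraMap M N x) = algebraMap M N x := fun x => h.commutes x
    rw [h2]
    unfold ev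
    rw [map_add, map_add, map_mul (S.ρ _) (algebraMap N LN (algebraMap M N (hM.co 1 y))),
      map_mul (S.ρ _) (algebraMap N LN (algebraMap M N (hM.co 2 y))), map_pow, S.ρθ, S.ρF, S.ρF, S.ρF]
    change algebraMap N LN (h _) + algebraMap N LN (h _) * θ + algebraMap N LN (h _) * θ ^ 2 = _
    rw [h3, h3, h3]
  have htN : ∀ w : TM, H76MQ.TwT N (algebraMap M N (algebraMap K M a)) (algebraMap LM LN θM)
      (H88OD.gq (g w) • (Q w).v) (S.ρ (g w) • (Q w).t1) (S.ρ (g w) • (Q w).t2) := by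
    intro w
    rw [← hab, hθM]
    exact H88GX.Ge_TwT (Q w) (g w)
  have key := fun w : TM => tw_down (M := M) (N := N) (LM := LM) (LN := LN) hgal (htN w)
    (fun h hh => gq_one (Q w) (g w) h hh) hρL
  -- the coordinates
  have hcoord : ∀ (w : TM) (e : Fin 3 → M) (c : SC LN), c ∈ H30ZO.HH N LN →
      ev (algebraMap N LN (algebraMap K N D) * θ) (fun i => algebraMap M N (e i)) ≠ 0 →
      sc (ev (algebraMap N LN (algebraMap K N D) * θ) (fun i => algebraMap M N (e i))) = c →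
      eo (dn LM (S.ρ (g w) • (Q w).t2)) (sc (ev (algebraMap M LM (algebraMap K M D) * θM) e)) =
        ((Q w).tr c).coeff (g w) ∧
      H76OD.uu M (algebraMap K M a) θM (dn LM (S.ρ (g w) • (Q w).t1))
          (dn LM (S.ρ (g w) • (Q w).t2)) (sc (ev (algebraMap M LM (algebraMap K M D) * θM) e)) =
        ((Q w).fl c).coeff (g w) := by
    intro w e c hc hne hec
    obtain ⟨-, k2, k3, k4⟩ := key w
    obtain ⟨u1, u2⟩ := H88GX.Ge_uu (Q w) hok.two (g w) hc
    have hx0 : ev (algebraMap M LM (algebraMap K M D) * θM) e ≠ 0 := by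
      intro h0
      rw [← hev, h0, map_zero] at hne
      exact hne rfl
    have hodd : OddP (S.ρ (g w) • (Q w).t1) := by
      rw [H38T1.oddP_smul]
      exact ((Q w).odd hok.two).2.1
    rw [← hec, ← hev] at u1 u2 hc
    have he1 : eo (S.ρ (g w) • (Q w).t1)
        (sc (algebraMap LM LN (ev (algebraMap M LM (algebraMap K M D) * θM) e))) = 0 := by
      have h1 := H88GX.HH_smul S (g w)⁻¹ hc
      have h2 := (Q w).eo_t1 hok.two h1
      have h3 := H38T1.eo_smul (v := (Q w).t1) (S.ρ (g w)) (S.ρ (g w)⁻¹ •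
        (sc (algebraMap LM LN (ev (algebraMap M LM (algebraMap K M D) * θM) e))))
      rw [smul_smul, ← map_mul, mul_inv_cancel, map_one, one_smul] at h3
      rw [h3]
      exact h2
    constructor
    · rw [← eo_down k3 hx0, u1, hev, hec]
    · have hder := (htN w).der
      rw [← uu_down (N := N) hodd hder k2 k3 k4 hx0 he1, ← hab, hθM, u2, hev, hec]
  -- the group
  obtain ⟨W, hWf, hW⟩ := H88GX.exists_YG S hD Sg (T.image H88GX.Sp.q)
  obtain ⟨V, hV⟩ : ∃ V : AddSubgroup (SC LN), ∀ c, c ∈ V ↔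
      S.Y D Sg (T.image H88GX.Sp.q) c ∧ ∀ g ∈ P, S.ρ g • c = c := by
    refine ⟨{ carrier := {c | c ∈ W ∧ ∀ g ∈ P, S.ρ g • c = c}
              zero_mem' := ⟨W.zero_mem, fun g _ => smul_zero _⟩
              add_mem' := fun {x y} hx hy => ⟨W.add_mem hx.1 hy.1, fun g hg => by
                rw [smul_add, hx.2 g hg, hy.2 g hg]⟩
              neg_mem' := fun {x} hx => ⟨W.neg_mem hx.1, fun g hg => by
                rw [smul_neg, hx.2 g hg]⟩ }, fun c => ?_⟩
    change (c ∈ W ∧ _) ↔ _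
    rw [hW]
  have hcV : Nat.card {c : SC LN // S.Y D Sg (T.image H88GX.Sp.q) c ∧ ∀ g ∈ P, S.ρ g • c = c} =
      Nat.card V := Nat.card_congr (Equiv.subtypeEquivRight fun c => (hV c).symm)
  rw [hcV]
  have hrx : ∀ c : V, ∃ e : Fin 3 → M,
      ev (algebraMap N LN (algebraMap K N D) * θ) (fun i => algebraMap M N (e i)) ≠ 0 ∧
      sc (ev (algebraMap N LN (algebraMap K N D) * θ) (fun i => algebraMap M N (e i))) = (c : SC LN) ∧
      Rx K M LM Sg (T.image H88GX.Sp.q) (D ^ 2 * a) (D ^ 3 * b)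
        (algebraMap M LM (algebraMap K M D) * θM) e := by
    intro c
    obtain ⟨hY, hfix⟩ := (hV _).1 c.2
    obtain ⟨e, he1, he2, he3⟩ := hE c hY.hh hfix
    refine ⟨e, he1, he2, ?_⟩
    have hdD : 4 * (D ^ 2 * a) ^ 3 + 27 * (D ^ 3 * b) ^ 2 ≠ 0 := H76OD.Lt_dne hD S.dne
    refine rx_down (H88GX.Gb_cub S hD) ?_ hdD (H38OD.realAt_twist hD hreal) hram hdesc r M LM hgal hr
      _ hMD e ?_ ?_ (rx_N (S := S) hD he1 ?_)
    · intro v hv
      by_contra h1
      rw [hok.two v h1] at hv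
      exact lt_irrefl _ hv
    · intro h0
      rw [← hev, h0, map_zero] at he1
      exact he1 rfl
    · rw [H76PP.Te_norm hMD]
      exact he3
    · rw [he2]
      exact hY
  have hcount := iso_card (V := V) (ι := TM)
    (fun w => AddMonoidHom.mk' (fun c => ((Q w).tr (c : SC LN)).coeff (g w)) (fun x y => by
      change ((Q w).tr ((x : SC LN) + y)).coeff (g w) = _
      rw [(Q w).tr_add]
      rfl))
    (fun w => AddMonoidHom.mk' (fun c => ((Q w).fl (c : SC LN)).coeff (g w)) (fun x y => by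
      change ((Q w).fl ((x : SC LN) + y)).coeff (g w) = _
      rw [(Q w).fl_add hok.two]
      rfl)) ?_ ?_
  · refine hcount.2.trans (Nat.pow_le_pow_right (by norm_num) ?_)
    rw [← Nat.card_eq_fintype_card]
    exact hcard
  · intro x hx
    obtain ⟨hY, hfix⟩ := (hV _).1 x.2
    apply Subtype.ext
    refine hgood _ hY fun Q' hQ' => ?_
    have h1 : ∀ g' : N ≃ₐ[K] N, (Q'.tr (x : SC LN)).coeff g' = 0 ∧ (Q'.fl (x : SC LN)).coeff g' = 0 := by
      intro g'
      have hw : dn M (H88OD.gq g' • Q'.v) ∈ TM := by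
        rw [hTM]
        exact ⟨Q', hQ', g', rfl⟩
      obtain ⟨h2, h3⟩ := coeff_eq hgal P hMP hfix (Q := Q') (Q' := Q ⟨_, hw⟩)
        (hinj Q' hQ' _ (hQT _)) (g := g') (g' := g ⟨_, hw⟩) (hQg ⟨_, hw⟩)
      obtain ⟨h4, h5⟩ := hx ⟨_, hw⟩
      exact ⟨h2.trans h4, h3.trans h5⟩
    exact ⟨H88OD.rg_ext fun g' => (h1 g').1, H88OD.rg_ext fun g' => (h1 g').2⟩
  · intro x y
    obtain ⟨e, he1, he2, he3⟩ := hrx x
    obtain ⟨e', he1', he2', he3'⟩ := hrx y
    have hsq : ¬ IsSquare (algebraMap K M (-(4 * a ^ 3 + 27 * b ^ 2))) := by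
      intro h
      have h1 := h.map (algebraMap M N)
      rw [← hab] at h1
      exact S.dsq h1
    have hrec := rec_M hM S.ha S.hb S.dne hsq hD hok.two hok.dis hok.val
      (fun w : TM => (w : HeightOneSpectrum (𝓞 M))) (fun w => dn LM (S.ρ (g w) • (Q w).t1))
      (fun w => dn LM (S.ρ (g w) • (Q w).t2)) Subtype.val_injective (by
        intro w
        rw [hQg w, H73P2.dn_dn (K := K) (k := M), H88OD.dn_gq]
        exact (Q w).out) (by
        intro w hw
        obtain ⟨V', hV'⟩ := H76PP.exists_above (L := N) w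
        rw [Finset.mem_image] at hw
        obtain ⟨Q', hQ', hq⟩ := hw
        have h1 : dn K V' = Q'.q := by
          rw [hq, ← hV', H73P2.dn_dn (K := K) (k := M)]
        obtain ⟨g', hg'⟩ := Q'.aboveF h1
        refine ⟨⟨w, ?_⟩, rfl⟩
        rw [hTM]
        exact ⟨Q', hQ', g', by rw [← hV', hg']⟩) (by
        intro w
        have h1 := (key w).1
        rw [← hQg w] at h1
        exact h1) he3 he3'
    have hxH : (x : SC LN) ∈ H30ZO.HH N LN := ((hV _).1 x.2).1.hh
    have hyH : (y : SC LN) ∈ H30ZO.HH N LN := ((hV _).1 y.2).1.hh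
    rw [← hrec]
    refine Finset.sum_congr rfl fun w _ => ?_
    obtain ⟨a1, a2⟩ := hcoord w e x hxH he1 he2
    obtain ⟨b1, b2⟩ := hcoord w e' y hyH he1' he2'
    rw [a1, a2, b1, b2]
    rfl

end Aux

/-- (FR) -/
theorem card_fix (hok : S.Ok D Sg) (hreal : RealAt K N a b)
    (hdesc : ∀ v ∈ Sg, DescAt K N v (D ^ 2 * a) (D ^ 3 * b))
    (hram : ∀ V : HeightOneSpectrum (𝓞 N), dn K V ∉ Sg → ¬ H73P2.Ram K V)
    (T : Finset (H88GX.Sp S Sg)) (hinj : ∀ Q ∈ T, ∀ Q' ∈ T, Q.q = Q'.q → Q = Q')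
    (hgood : ∀ c, S.Y D Sg (T.image H88GX.Sp.q) c → (∀ Q ∈ T, Q.tr c = 0 ∧ Q.fl c = 0) → c = 0)
    (P : Subgroup (N ≃ₐ[K] N)) (hP : IsPGroup 2 P) :
    Nat.card {c : SC LN // S.Y D Sg (T.image H88GX.Sp.q) c ∧ ∀ g ∈ P, S.ρ g • c = c} ≤
      2 ^ (P.index * T.card) := by
  have _ : IsGalois K N := S.gal
  have hfd : FiniteDimensional K N := Module.Finite.of_restrictScalars_finite ℚ K N
  have hnf : NumberField (IntermediateField.fixedField P) :=
    NumberField.of_module_finite K (IntermediateField.fixedField P)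
  have hgal : IsGalois (IntermediateField.fixedField P) N := IsGalois.tower_top_of_isGalois K _ N
  obtain ⟨r, hr⟩ := IsPGroup.iff_card.1 hP
  refine card_fix_aux (M := IntermediateField.fixedField P) hgal (r := r) ?_ hok hreal hdesc hram T
    hinj hgood P ?_ ?_ ?_
  · rw [IntermediateField.finrank_fixedField_eq_card, hr]
  · intro h
    have h1 : h.restrictScalars K ∈ (IntermediateField.fixedField P).fixingSubgroup := by
      rw [IntermediateField.mem_fixingSubgroup_iff]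
      intro x hx
      exact h.commutes ⟨x, hx⟩
    rwa [IntermediateField.fixingSubgroup_fixedField] at h1
  · intro p hp
    refine ⟨AlgEquiv.ofRingEquiv (f := p.toRingEquiv) fun x => ?_, ?_⟩
    · exact x.2 ⟨p, hp⟩
    · apply AlgEquiv.ext
      intro x
      rfl
  · intro c hc hfix
    exact exists_e S P hok.ne hc hfix

end H42GN
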