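import Pool.Agent.H42.GN.Hf
import Pool.Agent.H88.GX.Mm
import Pool.Agent.H88.GX.Nb2
import Pool.Agent.H30.OR.Tg

/-!
MP_78d38b_GN, necessity, steps (1) and (4) (helper42): the Selmer group of `E_E` in terms of the relaxed group of `E_D` and the local
conditions at the places above `T`.
-/

set_option autoImplicit false
set_option linter.unusedSectionVars false
open scoped Classical

open WithZero NumberField IsDedekindDomain H38RT
open H38T1 (SC sc scu rep eo la si OddP)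
open H36MX (hsv)
open H76MQ (al be)
open H76PP (Cub LC ev scm dn)
open H30ZO (nb)
open H30OR (LocD)

namespace H42GN

variable {K F L : Type} [Field K] [NumberField K] [Field F] [NumberField F] [Field L]
  [NumberField L] [Algebra K F] [Algebra F L] {a b : K} {θ : L} {S : H88GX.Ext K F L a b θ}
  {Sg : Finset (HeightOneSpectrum (𝓞 K))}

theorem ig_nhds (v : HeightOneSpectrum (𝓞 F)) :
    ∀ U ∈ nhds (0 : v.adicCompletion F), ∃ k : ℕ, ∀ x : K,
      (dn K v).valuation K x ≤ exp (-(k : ℤ)) →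
        ((algebraMap F (v.adicCompletion F)).comp (algebraMap K F)) x ∈ U := by
  intro U hU
  rw [Valued.mem_nhds_zero] at hU
  obtain ⟨γ, hγ⟩ := hU
  obtain ⟨n, hn⟩ := exists_exp_neg_natCast_lt
    (x := MonoidWithZeroHom.ValueGroup₀.embedding γ.1) (by simp)
  refine ⟨n, fun x hx => hγ ?_⟩
  change Valued.v.restrict _ < γ.1
  rw [Valuation.restrict_lt_iff_lt_embedding]
  refine lt_of_le_of_lt ?_ hn
  have h2 := v.valuedAdicCompletion_eq_valuation' (K := F) (algebraMap K F x)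
  change Valued.v (algebraMap F (v.adicCompletion F) (algebraMap K F x)) = _ at h2
  change Valued.v (algebraMap F (v.adicCompletion F) (algebraMap K F x)) ≤ _
  rw [h2]
  exact H76PP.val_exp_le (by positivity) hx

theorem ig_sq (v : HeightOneSpectrum (𝓞 F)) {δ : K}
    (h : IsSquare (algebraMap K ((dn K v).adicCompletion K) δ)) :
    IsSquare (algebraMap F (v.adicCompletion F) (algebraMap K F δ)) := by
  have h1 := h.map (Pool.Agent.H10.adicLift (dn K v)
    ((algebraMap F (v.adicCompletion F)).comp (algebraMap K F))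
    (Pool.Agent.H10.continuous_fromVal (dn K v) _ (ig_nhds v)))
  rw [Pool.Agent.H10.adicLift_algebraMap] at h1
  exact h1

theorem ig_tw {D E : K} (hD : D ≠ 0) (hE : E ≠ 0) (v : HeightOneSpectrum (𝓞 F))
    (h : IsSquare (algebraMap K ((dn K v).adicCompletion K) (E / D))) (c : SC L) :
    S.Lv D v c ↔ S.Lv E v c := by
  rw [H30GX.Lv_iff, H30GX.Lv_iff]
  refine H76OD.Wc_tw_iff _ ((map_ne_zero _).2 hD) ((map_ne_zero _).2 hE) ?_
  rw [← map_div₀]
  exact ig_sq v h

theorem ig_twr {D E : K} (hD : D ≠ 0) (hE : E ≠ 0) (s : F →+* ℝ)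
    (h : ∀ s : K →+* ℝ, 0 < s (E / D)) (c : SC L) : S.Lr D s c ↔ S.Lr E s c := by
  rw [H30GX.Lr_iff, H30GX.Lr_iff]
  refine H76OD.Wc_tw_real _ ((map_ne_zero _).2 hD) ((map_ne_zero _).2 hE) ?_
  rw [← map_div₀]
  exact h (s.comp (algebraMap K F))

/-- The order at a place above is a multiple. -/
theorem ig_ord (v : HeightOneSpectrum (𝓞 F)) {x : K} (hx : x ≠ 0)
    (h : Even (ord ((dn K v).valuation K) x)) : Even (ord (v.valuation F) (algebraMap K F x)) := by
  obtain ⟨e, -, he⟩ := H76PP.ord_dn (K := K) v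
  rw [he x hx]
  exact h.mul_left _

theorem ig_disc (v : HeightOneSpectrum (𝓞 F))
    (hd : (dn K v).valuation K (4 * a ^ 3 + 27 * b ^ 2) = 1) :
    v.valuation F (4 * (algebraMap K F a) ^ 3 + 27 * (algebraMap K F b) ^ 2) = 1 := by
  have h := H76PP.val_one (L := F) (w := v) hd
  rw [map_add, map_mul, map_mul, map_pow, map_pow, map_ofNat, map_ofNat] at h
  exact h

theorem ig_two (v : HeightOneSpectrum (𝓞 F)) (h2 : (dn K v).valuation K 2 = 1) :
    v.valuation F 2 = 1 := by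
  have h := H76PP.val_one (L := F) (w := v) h2
  rwa [map_ofNat] at h

theorem ig_three (v : HeightOneSpectrum (𝓞 F)) (h2 : (dn K v).valuation K 3 = 1) :
    v.valuation F 3 = 1 := by
  have h := H76PP.val_one (L := F) (w := v) h2
  rwa [map_ofNat] at h

/-- Even order: good reduction. -/
theorem ig_good (v : HeightOneSpectrum (𝓞 F)) (h2 : (dn K v).valuation K 2 = 1)
    (hd : (dn K v).valuation K (4 * a ^ 3 + 27 * b ^ 2) = 1) {E : K} (hE : E ≠ 0)
    (hEe : Even (ord ((dn K v).valuation K) E)) {c : SC L} (hc : c ∈ H30ZO.HH F L) :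
    S.Lv E v c ↔ ∀ w : HeightOneSpectrum (𝓞 L), dn F w = v → eo w c = 0 := by
  rw [H30GX.Lv_iff]
  exact H30OR.Wc_even S.cub (H76PP.val_le (S.ha _)) (H76PP.val_le (S.hb _)) (ig_two v h2)
    (ig_disc v hd) ((map_ne_zero _).2 hE) (ig_ord v hE hEe) hc

/-- **The Selmer group of the twist by `E`.** -/
theorem V_iff_T {D E : K} (hok : S.Ok D Sg) (hE : E ≠ 0)
    (hsq : ∀ v ∈ Sg, IsSquare (algebraMap K (v.adicCompletion K) (E / D)))
    (hpos : ∀ s : K →+* ℝ, 0 < s (E / D)) {T : Finset (HeightOneSpectrum (𝓞 K))}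
    (hev : ∀ v, v ∉ Sg → v ∉ T → Even (ord (v.valuation K) E))
    (W : {v // v ∈ T} → HeightOneSpectrum (𝓞 F)) (hW : ∀ v, dn K (W v) = v.1) (c : SC L) :
    S.V E c ↔ S.Y D Sg T c ∧ ∀ v (g : F ≃ₐ[K] F), S.Lv E (W v) (S.ρ g • c) := by
  constructor
  · intro h
    refine ⟨⟨h.hh, fun v hv => ?_, fun s => ?_, fun w h1 h2 => ?_⟩, fun v g =>
      (H88GX.V_smul S g h).fin _⟩
    · exact (ig_tw hok.ne hE v (hsq _ hv) c).2 (h.fin v)
    · exact (ig_twr hok.ne hE s hpos c).2 (h.inf s)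
    · exact (ig_good (dn F w) (hok.two _ h1) (hok.dis _ h1) hE (hev _ h1 h2) h.hh).1 (h.fin _) w rfl
  · rintro ⟨h, hl⟩
    refine ⟨h.hh, fun v => ?_, fun s => (ig_twr hok.ne hE s hpos c).1 (h.inf s)⟩
    by_cases h1 : dn K v ∈ Sg
    · exact (ig_tw hok.ne hE v (hsq _ h1) c).1 (h.fin v h1)
    by_cases h2 : dn K v ∈ T
    · have _ : IsGalois K F := S.gal
      obtain ⟨g, hg⟩ := H88GX.Gc_trans (K := K) (v := v) (v' := W ⟨_, h2⟩) (by rw [hW])
      have h3 := (H88GX.Lv_smul S E g (W ⟨_, h2⟩) (S.ρ g⁻¹ • c)).2 (hl _ _)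
      rw [← mul_smul, ← map_mul, mul_inv_cancel, map_one, one_smul] at h3
      rw [hg]
      exact h3
    · rw [ig_good v (hok.two _ h1) (hok.dis _ h1) hE (hev _ h1 h2) h.hh]
      intro w hw
      exact h.ev w (by rw [hw]; exact h1) (by rw [hw]; exact h2)

theorem ig_int {x : F} (hx : ∀ v : HeightOneSpectrum (𝓞 F), v.valuation F x ≤ 1) :
    ∃ y : 𝓞 F, (y : F) = x := by
  obtain ⟨y, hy⟩ := HeightOneSpectrum.mem_integers_of_valuation_le_one F x hx
  exact ⟨y, hy⟩

/-- The local data at an odd good place, for `a` and `b` integral. -/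
theorem locD_of {v : HeightOneSpectrum (𝓞 F)} {a b : F} {θ : L} (h : Cub F L a b θ)
    (ha : ∀ v : HeightOneSpectrum (𝓞 F), v.valuation F a ≤ 1)
    (hb : ∀ v : HeightOneSpectrum (𝓞 F), v.valuation F b ≤ 1) (hv : OddP v)
    (h3 : v.valuation F 3 = 1) (hd : v.valuation F (4 * a ^ 3 + 27 * b ^ 2) = 1) {D E : F}
    (hD : D ≠ 0) (hDe : Even (ord (v.valuation F) D)) (hE : E ≠ 0)
    (hEo : Odd (ord (v.valuation F) E)) :
    ∃ (m : ℕ) (r u : Fin m → (SC L →+ ZMod 2)), nb F L v = m + 1 ∧ LocD h v D E r u ∧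
      (m : ZMod 2) = la v (sc (-(4 * a ^ 3 + 27 * b ^ 2))) := by
  obtain ⟨A, rfl⟩ := ig_int ha
  obtain ⟨B, rfl⟩ := ig_int hb
  exact H30OR.loc_all h hv h3 hd hD hDe hE hEo

end H42GN
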