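import Pool.Agent.H38.T1.Eb
import Pool.Agent.H76.PP.Ta

/-!
ROW Hh (MP_78d38b_GN, section 2, helper42, about 120 lines): parity of the order and Legendre classes under an unramified extension of places with the same residue field.

PROOF. eo_down: `H38T1.eo_sc`, `ord` is `- log` of the valuation. la_down: `H38T1.la_sc`: `lam (w.valuation) (unif w) x = 0` iff `Sq (w.valuation) (x * unif w ^ (-ord x))` (Pool/Agent/H38/RT: lam, Sq V u: there is t with V (u - t^2) < 1). The order `2 k` of `x` is even at both places;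
`x * unif w ^ (-2k)` differs from `x * (unif (dn w))^(-2k)` by the square of a unit, and for a unit `u ∈ LM`: `Sq (dn w) u ↔ Sq w u`: `←`: `t ∈ LN`, `w (u - t^2) < 1`, so `w t = 1`; `hres` gives `t' ∈ LM` with `w (t - t') < 1`, so `w (u - t'^2) < 1`, `hv`.
Alternatively use `H38T1.la` lemmas of the library for units (la_unit, la_eq_zero_iff).
-/

set_option autoImplicit false
set_option linter.unusedSectionVars false
open scoped Classical

open WithZero NumberField IsDedekindDomain H38RT
open H38T1 (SC sc scu rep eo la si OddP)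

open H76PP (Cub LC ev scm dn)

namespace H42GN

variable {M N LM LN : Type} [Field M] [NumberField M] [Field N] [NumberField N] [Field LM]
  [NumberField LM] [Field LN] [NumberField LN] [Algebra M N] [Algebra M LM] [Algebra N LN]
  [Algebra LM LN] [Algebra M LN] [IsScalarTower M N LN] [IsScalarTower M LM LN]

theorem eo_down {w : HeightOneSpectrum (𝓞 LN)}
    (hv : ∀ y : LM, w.valuation LN (algebraMap LM LN y) = (dn LM w).valuation LM y) {x : LM}
    (hx : x ≠ 0) : eo w (sc (algebraMap LM LN x)) = eo (dn LM w) (sc x) := by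
  have hx' : algebraMap LM LN x ≠ 0 := by
    rw [Ne, map_eq_zero]
    exact hx
  rw [H38T1.eo_sc hx', H38T1.eo_sc hx]
  unfold ord
  rw [hv]

theorem Hh_sq {w : HeightOneSpectrum (𝓞 LN)}
    (hv : ∀ y : LM, w.valuation LN (algebraMap LM LN y) = (dn LM w).valuation LM y)
    (hres : ∀ y : LN, w.valuation LN y ≤ 1 →
      ∃ x : LM, (dn LM w).valuation LM x ≤ 1 ∧ w.valuation LN (y - algebraMap LM LN x) < 1)
    {u : LM} (hu : (dn LM w).valuation LM u = 1) :
    Sq (w.valuation LN) (algebraMap LM LN u) ↔ Sq ((dn LM w).valuation LM) u := by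
  constructor
  · rintro ⟨t, ht⟩
    have hu' : w.valuation LN (algebraMap LM LN u) = 1 := by rw [hv, hu]
    have ht1 : w.valuation LN t ≤ 1 := by
      by_contra hcon
      push Not at hcon
      have h1 : 1 < w.valuation LN (t ^ 2) := by
        rw [map_pow]
        exact one_lt_pow₀ hcon two_ne_zero
      have h2 : w.valuation LN (algebraMap LM LN u - t ^ 2) = w.valuation LN (t ^ 2) :=
        Valuation.map_sub_eq_of_lt_right _ (by rw [hu']; exact h1)
      rw [h2] at ht
      exact absurd (ht.trans h1) (lt_irrefl _)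
    obtain ⟨s, hs, hst⟩ := hres t ht1
    refine ⟨s, ?_⟩
    rw [← hv]
    have h3 : algebraMap LM LN (u - s ^ 2) = (algebraMap LM LN u - t ^ 2) +
        (t - algebraMap LM LN s) * (t + algebraMap LM LN s) := by
      rw [map_sub, map_pow]
      ring
    rw [h3]
    refine Valuation.map_add_lt _ ht ?_
    rw [map_mul]
    have h4 : w.valuation LN (t + algebraMap LM LN s) ≤ 1 :=
      Valuation.map_add_le _ ht1 (by rw [hv]; exact hs)
    exact mul_lt_one_of_lt_of_le hst h4
  · rintro ⟨t, ht⟩
    refine ⟨algebraMap LM LN t, ?_⟩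
    rw [← map_pow, ← map_sub, hv]
    exact ht

theorem la_down {w : HeightOneSpectrum (𝓞 LN)} (ho : OddP w)
    (hv : ∀ y : LM, w.valuation LN (algebraMap LM LN y) = (dn LM w).valuation LM y)
    (hres : ∀ y : LN, w.valuation LN y ≤ 1 →
      ∃ x : LM, (dn LM w).valuation LM x ≤ 1 ∧ w.valuation LN (y - algebraMap LM LN x) < 1)
    {x : LM} (hx : x ≠ 0) (he : eo w (sc (algebraMap LM LN x)) = 0) :
    la w (sc (algebraMap LM LN x)) = la (dn LM w) (sc x) := by
  have hx' : algebraMap LM LN x ≠ 0 := by
    rw [Ne, map_eq_zero]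
    exact hx
  have ho' : OddP (dn LM w) := by
    unfold OddP at ho ⊢
    rw [← hv, map_ofNat]
    exact ho
  obtain ⟨q, d, ψ, h⟩ := H38T1.loc_of w
  have h' : Loc (w.valuation LN) (algebraMap LM LN (H38T1.unif (dn LM w))) q d ψ :=
    ⟨by rw [hv]; exact H38T1.unif_spec _, h.card, h.pos, h.cond⟩
  have hc := H38T1.Eb_change h h' ho hx'
  rw [H38T1.eo_sc hx'] at he
  rw [he, zero_mul, add_zero] at hc
  rw [H38T1.la_sc ho hx', H38T1.la_sc ho' hx, ← hc]
  unfold lam
  have hord : ord (w.valuation LN) (algebraMap LM LN x) = ord ((dn LM w).valuation LM) x := by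
    unfold ord
    rw [hv]
  have hp0 : H38T1.unif (dn LM w) ≠ 0 := by
    intro h0
    have h1 := H38T1.unif_spec (dn LM w)
    rw [h0, map_zero] at h1
    exact exp_ne_zero h1.symm
  have hu : (dn LM w).valuation LM
      (x * H38T1.unif (dn LM w) ^ (-ord ((dn LM w).valuation LM) x)) = 1 := by
    rw [map_mul, map_zpow₀, H38T1.unif_spec, H38RT.V_eq hx, ← exp_zsmul, ← exp_add]
    simp
  have e1 : algebraMap LM LN x * algebraMap LM LN (H38T1.unif (dn LM w)) ^
      (-ord (w.valuation LN) (algebraMap LM LN x)) =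
      algebraMap LM LN (x * H38T1.unif (dn LM w) ^ (-ord ((dn LM w).valuation LM) x)) := by
    rw [hord, map_mul, map_zpow₀]
  rw [e1]
  by_cases hS : Sq ((dn LM w).valuation LM)
      (x * H38T1.unif (dn LM w) ^ (-ord ((dn LM w).valuation LM) x))
  · rw [if_pos hS, if_pos ((Hh_sq hv hres hu).2 hS)]
  · rw [if_neg hS, if_neg fun h' => hS ((Hh_sq hv hres hu).1 h')]

end H42GN
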