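import Pool.Agent.H42.GN.If
import Pool.Agent.H42.GN.Ig
import Pool.Agent.H30.OR.Tp
import Pool.Agent.H88.GN.Pm
import Pool.Agent.H95.GN.Nd
import Pool.Agent.H26.OD.Ri

/-!
MP_78d38b_GN, necessity (helper42): the structure `Nec` of the Selmer group of `E_{D0}` over `F` if the Selmer group of `E_D` is trivial.
-/

set_option autoImplicit false
set_option linter.unusedSectionVars false
open scoped Classical

open WithZero NumberField IsDedekindDomain H38RT
open H38T1 (SC sc scu rep eo la si OddP)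
open H36MX (hsv)
open H76MQ (al be)
open H76PP (Cub LC ev scm dn)
open H30ZO (nb RealAt)
open H36CY (DescAt)
open H30OR (LocD)
open H88GX (Ext)
open H26OD (Zs)

namespace H42GN

theorem nec_nt {K F L : Type} [Field K] [NumberField K] [Field F] [NumberField F] [Field L]
    [NumberField L] [Algebra K F] [Algebra F L] {a b : K} {θ : L} (S : Ext K F L a b θ) {D0 D : K}
    {Sg : Finset (HeightOneSpectrum (𝓞 K))} (hok : S.Ok D0 Sg)
    (h3 : ∀ v : HeightOneSpectrum (𝓞 K), v ∉ Sg → v.valuation K 3 = 1)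
    (hram : ∀ V : HeightOneSpectrum (𝓞 F), dn K V ∉ Sg → ¬ H73P2.Ram K V) (hD : D ≠ 0)
    (hsq : ∀ v ∈ Sg, IsSquare (algebraMap K (v.adicCompletion K) (D / D0)))
    (hpos : ∀ s : K →+* ℝ, 0 < s (D / D0))
    (hev : ∀ v : HeightOneSpectrum (𝓞 K), v ∉ Zs K F → Even (ord (v.valuation K) (D / D0)))
    (hreal : RealAt K F a b) (hdesc : ∀ v ∈ Sg, DescAt K F v (D0 ^ 2 * a) (D0 ^ 3 * b))
    (hV : ∀ c, S.V D c → c = 0) {W : AddSubgroup (SC L)} (hW : ∀ c, c ∈ W ↔ S.V D0 c) :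
    Nonempty (H26GN.Nec (fun (g : F ≃ₐ[K] F) (c : SC L) => S.ρ g • c) W) := by
  have hgal : IsGalois K F := S.gal
  have hfd : FiniteDimensional K F := Module.Finite.of_restrictScalars_finite ℚ K F
  have h0 : D0 ≠ 0 := hok.ne
  have hδ : D / D0 ≠ 0 := div_ne_zero hD h0
  -- the set `T`
  obtain ⟨T, hTT⟩ : ∃ T : Finset (HeightOneSpectrum (𝓞 K)), ∀ v, v ∈ T ↔
      v ∉ Sg ∧ Odd (ord (v.valuation K) (D / D0)) := by
    have hfin : {v : HeightOneSpectrum (𝓞 K) | v ∉ Sg ∧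
        Odd (ord (v.valuation K) (D / D0))}.Finite := by
      refine (H38RT.fin_bad hδ).subset fun v hv => ?_
      intro h1
      have h2 := hv.2
      unfold ord at h2
      rw [h1, log_one, neg_zero] at h2
      exact (Int.not_odd_iff_even.2 (⟨0, rfl⟩ : Even (0 : ℤ))) h2
    exact ⟨hfin.toFinset, fun v => by rw [Set.Finite.mem_toFinset]; exact Iff.rfl⟩
  have hTS : ∀ v ∈ T, v ∉ Sg := fun v hv => ((hTT v).1 hv).1
  have hTZ : ∀ v ∈ T, v ∈ Zs K F := by
    intro v hv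
    by_contra h1
    exact (Int.not_odd_iff_even.2 (hev v h1)) ((hTT v).1 hv).2
  have hord0 : ∀ v : HeightOneSpectrum (𝓞 K), v ∉ Sg → ord (v.valuation K) D0 = 0 := by
    intro v hv
    unfold ord
    rw [hok.val v hv, log_one, neg_zero]
  have hordD : ∀ v : HeightOneSpectrum (𝓞 K), v ∉ Sg →
      ord (v.valuation K) D = ord (v.valuation K) (D / D0) := by
    intro v hv
    have h1 : D = D / D0 * D0 := by field_simp
    conv_lhs => rw [h1]
    rw [ord_mul hδ h0, hord0 v hv, add_zero]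
  -- the places above `T`
  have hab : ∀ v : {v // v ∈ T}, ∃ V : HeightOneSpectrum (𝓞 F), dn K V = v.1 := fun v =>
    H76PP.exists_above v.1
  choose V hVd using hab
  have hfr : ∀ v (g : F ≃ₐ[K] F), H88OD.gq g • V v = V v → g = 1 := fun v g hg =>
    hTZ v.1 v.2 (V v) (hVd v) g hg
  have hval : ∀ v (x : K), (V v).valuation F (algebraMap K F x) = v.1.valuation K x := by
    intro v x
    have h1 := unr_val hgal (hfr v) x
    rw [hVd] at h1
    exact h1
  have hout : ∀ v, dn K (V v) ∉ Sg := fun v => by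
    rw [hVd]
    exact hTS v.1 v.2
  have hex : ∀ v : {v // v ∈ T}, ∃ (m : ℕ) (r u : Fin m → (SC L →+ ZMod 2)),
      nb F L (V v) = m + 1 ∧
      LocD S.cub (V v) (algebraMap K F D0) (algebraMap K F D) r u ∧
      (m : ZMod 2) =
        la (V v) (sc (-(4 * (algebraMap K F a) ^ 3 + 27 * (algebraMap K F b) ^ 2))) := by
    intro v
    refine locD_of S.cub (fun w => H76PP.val_le (S.ha _)) (fun w => H76PP.val_le (S.hb _))
      (ig_two _ (hok.two _ (hout v))) (ig_three _ (h3 _ (hout v))) (ig_disc _ (hok.dis _ (hout v)))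
      ((map_ne_zero _).2 h0) ?_ ((map_ne_zero _).2 hD) ?_
    · unfold ord
      rw [hval, hok.val _ (hTS v.1 v.2), log_one, neg_zero]
      exact ⟨0, rfl⟩
    · have h1 := ((hTT v.1).1 v.2).2
      rw [← hordD _ (hTS v.1 v.2)] at h1
      unfold ord at h1 ⊢
      rw [hval]
      exact h1
  choose m r u hnb hloc hm using hex
  -- the relaxed group
  obtain ⟨Y, -, hY⟩ := H88GX.exists_YG S h0 Sg T
  have hVD := V_iff_T (S := S) hok hD hsq hpos (T := T) (fun v h1 h2 => by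
      rw [hordD v h1, ← Int.not_odd_iff_even]
      exact fun h4 => h2 ((hTT v).2 ⟨h1, h4⟩)) V hVd
  have hVD0 := V_iff_T (S := S) hok h0 (fun v _ => by
      rw [div_self h0, map_one]
      exact IsSquare.one) (fun s => by
      rw [div_self h0, map_one]
      exact one_pos) (T := T) (fun v h1 _ => by
      rw [hord0 v h1]
      exact ⟨0, rfl⟩) V hVd
  have hLD : ∀ v c, c ∈ H30ZO.HH F L → (S.Lv D (V v) c ↔ ∀ i, u v i c = 0) := by
    intro v c hc
    rw [H30GX.Lv_iff]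
    exact (hloc v).hu c hc
  have hLD0 : ∀ v c, c ∈ H30ZO.HH F L → (S.Lv D0 (V v) c ↔ ∀ i, r v i c = 0) := by
    intro v c hc
    rw [H30GX.Lv_iff]
    exact (hloc v).hr c hc
  have hq : ∀ v, ∀ c ∈ H30ZO.HH F L, ∀ y : L, y ≠ 0 → sc y = c → al S.cub y ≠ 0 →
      be S.cub y ≠ 0 → hsv (V v) (al S.cub y) (be S.cub y) = ∑ i, u v i c * r v i c := by
    intro v c hc y hy hyc hal hbe
    rw [(hloc v).hq c hc y hy hyc hal hbe]
    exact Finset.sum_congr rfl fun i _ => mul_comm _ _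
  let _ : Fintype (F ≃ₐ[K] F) := Fintype.ofFinite _
  obtain ⟨n, hn⟩ := H88GN.even_m hok hδ hsq hpos hTT hVd hfr hm
  have hsum : ∀ f : ∀ v : {v // v ∈ T}, Fin (m v) → (F ≃ₐ[K] F) → ZMod 2,
      ∑ j : Σ v : {v // v ∈ T}, Fin (m v), ∑ g, f j.1 j.2 g = ∑ v, ∑ k, ∑ i, f v i k⁻¹ := by
    intro f
    rw [Fintype.sum_sigma]
    refine Finset.sum_congr rfl fun v _ => ?_
    rw [Finset.sum_comm]
    exact (Equiv.sum_comp (Equiv.inv (F ≃ₐ[K] F)) (fun g => ∑ i, f v i g)).symm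
  refine H95GN.nec_of (act := fun (g : F ≃ₐ[K] F) (c : SC L) => S.ρ g • c) (Y := Y)
    (ι := Σ v : {v // v ∈ T}, Fin (m v)) (m := n) (fun x => ?_) (fun g h x => ?_) (fun g x y => ?_)
    (fun g y hy => ?_) ?_ (fun j => u j.1 j.2) (fun j => r j.1 j.2) ?_ ?_ ?_ ?_ ?_
  · change S.ρ 1 • x = x
    rw [map_one, one_smul]
  · change S.ρ (g * h) • x = S.ρ g • S.ρ h • x
    rw [map_mul, mul_smul]
  · exact smul_add _ _ _
  · rw [hY] at hy ⊢
    exact H88GX.Y_smul S g hy
  · rw [Fintype.card_sigma, two_mul, ← hn]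
    exact Finset.sum_congr rfl fun v _ => Fintype.card_fin _
  · intro y hy h
    rw [hY] at hy
    refine hV y ((hVD y).2 ⟨hy, fun v g => (hLD v _ (H88GX.HH_smul S g hy.hh)).2 fun i => ?_⟩)
    exact h ⟨v, i⟩ g
  · have h1 := (H30OR.card_YN hok hTS V hVd hfr hnb hY).2
    rw [Fintype.card_sigma]
    simpa only [Fintype.card_fin] using h1
  · intro x
    rw [hW, hVD0, hY]
    refine and_congr_right fun hx => ?_
    constructor
    · intro h j g
      exact (hLD0 j.1 _ (H88GX.HH_smul S g hx.hh)).1 (h j.1 g) j.2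
    · intro h v g
      exact (hLD0 v _ (H88GX.HH_smul S g hx.hh)).2 fun i => h ⟨v, i⟩ g
  · intro y hy
    rw [hY] at hy
    rw [hsum (fun v i g => u v i (S.ρ g • y) * r v i (S.ρ g • y))]
    exact rec_sum hok hreal hdesc hram hTS V hVd hfr u r hq hy
  · intro g hg _ y hy
    rw [hY] at hy
    rw [hsum (fun v i h => u v i (S.ρ h • y) * r v i (S.ρ h • (S.ρ g • y)))]
    exact inv_sum hok hreal hdesc hram hTS V hVd hfr u r hq hy hg

end H42GN
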