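import Pool.Agent.H42.GN.Hc
import Pool.Agent.H88.GX.Ga
import Pool.Agent.H76.MQ.Df
import Pool.Agent.H76.SD.Sa
import Pool.Agent.H88.OD.Ga

/-!
MP_78d38b_GN, necessity, step (5) (helper42): the conic of an element under base change and automorphisms.
-/

set_option autoImplicit false
set_option linter.unusedSectionVars false
open scoped Classical

open WithZero NumberField IsDedekindDomain H38RT
open H38T1 (SC sc scu rep eo la si OddP tp)
open H36MX (hsv)
open H76MQ (al be)
open H76PP (Cub LC ev scm dn)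

namespace H42GN

section Up

variable {M N LM LN : Type} [Field M] [Field N] [Field LM] [Field LN] [Algebra M N] [Algebra M LM]
  [Algebra N LN] [Algebra LM LN] {A B : M} {A' B' : N} {θM : LM} {θN : LN}

theorem co_up (hM : Cub M LM A B θM) (hN : Cub N LN A' B' θN)
    (hML : ∀ x : M, algebraMap LM LN (algebraMap M LM x) = algebraMap N LN (algebraMap M N x))
    (hθ : algebraMap LM LN θM = θN) (y : LM) (i : Fin 3) :
    hN.co i (algebraMap LM LN y) = algebraMap M N (hM.co i y) := by
  have h1 : algebraMap LM LN y = algebraMap N LN (algebraMap M N (hM.co 0 y)) +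
      algebraMap N LN (algebraMap M N (hM.co 1 y)) * θN +
      algebraMap N LN (algebraMap M N (hM.co 2 y)) * θN ^ 2 := by
    conv_lhs => rw [hM.eq_co y]
    rw [map_add, map_add, map_mul, map_mul, map_pow, hML, hML, hML, hθ]
  rw [h1]
  exact hN.co_mk (fun i => algebraMap M N (hM.co i y)) i

theorem al_up (hM : Cub M LM A B θM) (hN : Cub N LN A' B' θN)
    (hML : ∀ x : M, algebraMap LM LN (algebraMap M LM x) = algebraMap N LN (algebraMap M N x))
    (hθ : algebraMap LM LN θM = θN) (y : LM) :
    al hN (algebraMap LM LN y) = algebraMap M N (al hM y) :=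
  co_up hM hN hML hθ y 2

theorem be_up (hM : Cub M LM A B θM) (hN : Cub N LN A' B' θN)
    (hML : ∀ x : M, algebraMap LM LN (algebraMap M LM x) = algebraMap N LN (algebraMap M N x))
    (hθ : algebraMap LM LN θM = θN) (hA : A' = algebraMap M N A) (y : LM) :
    be hN (algebraMap LM LN y) = algebraMap M N (be hM y) := by
  unfold be
  rw [co_up hM hN hML hθ, co_up hM hN hML hθ, co_up hM hN hML hθ, map_add, map_sub, map_pow,
    map_mul, map_mul, map_pow, hA]

end Up

section Act

variable {K N LN : Type} [Field K] [NumberField K] [Field N] [NumberField N] [Field LN]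
  [NumberField LN] [Algebra K N] [Algebra N LN] {a b : K} {θ : LN}

theorem al_act (S : H88GX.Ext K N LN a b θ) (g : N ≃ₐ[K] N) (y : LN) :
    al S.cub (S.ρ g y) = g (al S.cub y) :=
  H88GX.Ga_co S g y 2

theorem be_act (S : H88GX.Ext K N LN a b θ) (g : N ≃ₐ[K] N) (y : LN) :
    be S.cub (S.ρ g y) = g (be S.cub y) := by
  unfold be
  rw [H88GX.Ga_co, H88GX.Ga_co, H88GX.Ga_co, map_add, map_sub, map_pow, map_mul, map_mul, map_pow,
    g.commutes]

theorem hsv_act (S : H88GX.Ext K N LN a b θ) (g : N ≃ₐ[K] N) (v : HeightOneSpectrum (𝓞 N))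
    (y : LN) : hsv (H88OD.gq g • v) (al S.cub y) (be S.cub y) =
      hsv v (al S.cub (S.ρ g⁻¹ y)) (be S.cub (S.ρ g⁻¹ y)) := by
  have h1 : S.ρ g (S.ρ g⁻¹ y) = y := by
    rw [map_inv]
    exact (S.ρ g).apply_symm_apply y
  have h2 := H76SD.hsv_smul (H88OD.gq g) v (al S.cub (S.ρ g⁻¹ y)) (be S.cub (S.ρ g⁻¹ y))
  rw [← h2]
  congr 1
  · conv_lhs => rw [← h1]
    exact al_act S g _
  · conv_lhs => rw [← h1]
    exact be_act S g _

end Act

end H42GN
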