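import Pool.Agent.H42.GN.Df
import Pool.Agent.H30.OR.Th

/-!
MP_78d38b_GN, necessity, step (5) (helper42): reciprocity over `M` for a class given by its coordinates.
-/

set_option autoImplicit false
set_option linter.unusedSectionVars false
open scoped Classical

open WithZero NumberField IsDedekindDomain H38RT
open H38T1 (SC sc scu rep eo la si OddP tp)
open H36MX (hsv)
open H76MQ (al be)
open H76OD (ConAt ConR)
open H76PP (Cub LC ev scm dn)

namespace H42GN

theorem rec_Mq {K M LM : Type} [Field K] [NumberField K] [Field M] [NumberField M] [Field LM]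
    [NumberField LM] [Algebra K M] [Algebra M LM] {a b D : K} {θ : LM}
    (h : Cub M LM (algebraMap K M a) (algebraMap K M b) θ)
    (ha : ∀ v : HeightOneSpectrum (𝓞 K), v.valuation K a ≤ 1)
    (hb : ∀ v : HeightOneSpectrum (𝓞 K), v.valuation K b ≤ 1)
    {Sg T : Finset (HeightOneSpectrum (𝓞 K))} (hD : D ≠ 0)
    (h2 : ∀ v : HeightOneSpectrum (𝓞 K), v ∉ Sg → v.valuation K 2 = 1)
    (hd : ∀ v : HeightOneSpectrum (𝓞 K), v ∉ Sg → v.valuation K (4 * a ^ 3 + 27 * b ^ 2) = 1)
    (hDv : ∀ v : HeightOneSpectrum (𝓞 K), v ∉ Sg → v.valuation K D = 1)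
    {TM : Finset (HeightOneSpectrum (𝓞 M))} (hTM : ∀ w, w ∈ TM ↔ dn K w ∈ T) {e : Fin 3 → M}
    (he : Rx K M LM Sg T (D ^ 2 * a) (D ^ 3 * b) (algebraMap M LM (algebraMap K M D) * θ) e)
    {q : HeightOneSpectrum (𝓞 M) → ZMod 2}
    (hq : ∀ w ∈ TM, ∀ y : LM, y ≠ 0 →
      sc y = sc (ev (algebraMap M LM (algebraMap K M D) * θ) e) → al h y ≠ 0 → be h y ≠ 0 →
      hsv w (al h y) (be h y) = q w) : ∑ w ∈ TM, q w = 0 := by
  have hD' : algebraMap K M D ≠ 0 := (map_ne_zero _).2 hD
  have ht := h.twist hD'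
  have e1 : algebraMap K M (D ^ 2 * a) = (algebraMap K M D) ^ 2 * algebraMap K M a := by
    rw [map_mul, map_pow]
  have e2 : algebraMap K M (D ^ 3 * b) = (algebraMap K M D) ^ 3 * algebraMap K M b := by
    rw [map_mul, map_pow]
  have hc : sc (ev (algebraMap M LM (algebraMap K M D) * θ) e) ∈ H30ZO.HH M LM :=
    (H30ZO.mem_HH he.ne).2 he.sq
  refine H30OR.rec_all h hc hq (fun w hw => ?_) (fun s => ?_)
  · rw [hTM] at hw
    refine H30OD.conAt_of_Wc h hD' w ?_
    by_cases hS : dn K w ∈ Sg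
    · have h1 := he.sg w hS
      rw [e1, e2] at h1
      exact (H30ZO.Wc_iff _ ht he.ne).2 h1
    · have hdM : 4 * (algebraMap K M a) ^ 3 + 27 * (algebraMap K M b) ^ 2 =
          algebraMap K M (4 * a ^ 3 + 27 * b ^ 2) := by
        simp only [map_add, map_mul, map_pow, map_ofNat]
      have h3 : w.valuation M 2 = 1 := by
        have h1 := H76PP.val_one (L := M) (w := w) (h2 _ hS)
        rwa [map_ofNat] at h1
      refine (H30OR.Wc_even h (H76PP.val_le (ha _)) (H76PP.val_le (hb _)) h3 ?_ hD' ?_ hc).2 ?_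
      · rw [hdM]
        exact H76PP.val_one (L := M) (w := w) (hd _ hS)
      · have h1 := H76PP.val_one (L := M) (w := w) (hDv _ hS)
        unfold ord
        rw [h1, log_one, neg_zero]
        exact ⟨0, rfl⟩
      · intro w' hw'
        refine he.even w' ?_ ?_
        · rw [hw']
          exact hS
        · rw [hw']
          exact hw
  · refine H30OD.conR_of_Wc h hD' s ?_
    have h1 := he.real s
    rw [e1, e2] at h1
    exact (H30ZO.Wc_iff _ ht he.ne).2 h1

end H42GN
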