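import Pool.Agent.H42.GN.Ia
import Pool.Agent.H42.GN.Ib
import Pool.Agent.H42.GN.Ic
import Pool.Agent.H42.GN.Hm

/-!
MP_78d38b_GN, necessity, step (5) (helper42): reciprocity over `M` for a class fixed by the group of `N / M`.
-/

set_option autoImplicit false
set_option linter.unusedSectionVars false
open scoped Classical

open WithZero NumberField IsDedekindDomain H38RT
open H38T1 (SC sc scu rep eo la si OddP)
open H36MX (hsv)
open H76MQ (al be)
open H76PP (Cub LC ev scm dn Te_nf)
open H36CY (DescAt)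
open H30ZO (RealAt)

namespace H42GN

variable {K N LN : Type} [Field K] [NumberField K] [Field N] [NumberField N] [Field LN]
  [NumberField LN] [Algebra K N] [Algebra N LN] {a b : K} {θ : LN} {S : H88GX.Ext K N LN a b θ}
  {Sg : Finset (HeightOneSpectrum (𝓞 K))} {D : K}

section Aux

variable {M : Type} [Field M] [NumberField M] [Algebra K M] [Algebra M N] [IsScalarTower K M N]

theorem fix_sum_aux (hgal : IsGalois M N) {r : ℕ} (hr : Module.finrank M N = 2 ^ r)
    (hok : S.Ok D Sg) (hreal : RealAt K N a b)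
    (hdesc : ∀ v ∈ Sg, DescAt K N v (D ^ 2 * a) (D ^ 3 * b))
    (hram : ∀ V : HeightOneSpectrum (𝓞 N), dn K V ∉ Sg → ¬ H73P2.Ram K V)
    {T : Finset (HeightOneSpectrum (𝓞 K))} (hT : ∀ v ∈ T, v ∉ Sg) {c : SC LN} (hY : S.Y D Sg T c)
    (hE : ∃ e : Fin 3 → M,
      ev (algebraMap N LN (algebraMap K N D) * θ) (fun i => algebraMap M N (e i)) ≠ 0 ∧
      sc (ev (algebraMap N LN (algebraMap K N D) * θ) (fun i => algebraMap M N (e i))) = c ∧
      IsSquare (Te_nf (algebraMap K M (D ^ 2 * a)) (algebraMap K M (D ^ 3 * b)) e))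
    {TM : Finset (HeightOneSpectrum (𝓞 M))} (hTM : ∀ w, w ∈ TM ↔ dn K w ∈ T)
    {q : HeightOneSpectrum (𝓞 M) → ZMod 2}
    (hq : ∀ w ∈ TM, ∃ V : HeightOneSpectrum (𝓞 N), dn M V = w ∧
      (∀ g : N ≃ₐ[M] N, H88OD.gq g • V = V → g = 1) ∧
      ∀ y : LN, y ≠ 0 → sc y = c → al S.cub y ≠ 0 → be S.cub y ≠ 0 →
        hsv V (al S.cub y) (be S.cub y) = q w) : ∑ w ∈ TM, q w = 0 := by
  have hD := hok.ne
  have hDM : algebraMap K M D ≠ 0 := (map_ne_zero _).2 hD
  have hab : ∀ x : K, algebraMap K N x = algebraMap M N (algebraMap K M x) :=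
    IsScalarTower.algebraMap_apply K M N
  -- the cubic field over `M`
  let _ : Algebra M LN := ((algebraMap N LN).comp (algebraMap M N)).toAlgebra
  have _ : IsScalarTower M N LN := IsScalarTower.of_algebraMap_eq fun x => rfl
  have hcubN : Cub N LN (algebraMap M N (algebraMap K M a)) (algebraMap M N (algebraMap K M b)) θ := by
    rw [← hab, ← hab]
    exact S.cub
  obtain ⟨LM, _, _, _, _, _, θM, hM, hθM⟩ := H73P2.exists_sub hcubN
  have hMD : Cub M LM (algebraMap K M (D ^ 2 * a)) (algebraMap K M (D ^ 3 * b))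
      (algebraMap M LM (algebraMap K M D) * θM) := by
    have h1 := hM.twist hDM
    rw [map_mul, map_pow, map_mul, map_pow]
    exact h1
  have hML : ∀ x : M, algebraMap LM LN (algebraMap M LM x) = algebraMap N LN (algebraMap M N x) :=
    fun x => by rw [← IsScalarTower.algebraMap_apply M LM LN, ← IsScalarTower.algebraMap_apply M N LN]
  have hθD : algebraMap LM LN (algebraMap M LM (algebraMap K M D) * θM) =
      algebraMap N LN (algebraMap K N D) * θ := by
    rw [map_mul, hML, hθM, ← hab]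
  have hev : ∀ e : Fin 3 → M, algebraMap LM LN (ev (algebraMap M LM (algebraMap K M D) * θM) e) =
      ev (algebraMap N LN (algebraMap K N D) * θ) (fun i => algebraMap M N (e i)) :=
    fun e => lift_ev (algebraMap LM LN) hML hθD e
  obtain ⟨e, he1, he2, he3⟩ := hE
  have he0 : ev (algebraMap M LM (algebraMap K M D) * θM) e ≠ 0 := by
    intro h0
    rw [← hev, h0, map_zero] at he1
    exact he1 rfl
  have hdD : 4 * (D ^ 2 * a) ^ 3 + 27 * (D ^ 3 * b) ^ 2 ≠ 0 := H76OD.Lt_dne hD S.dne
  have hrx : Rx K M LM Sg T (D ^ 2 * a) (D ^ 3 * b) (algebraMap M LM (algebraMap K M D) * θM) e := by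
    refine rx_down (H88GX.Gb_cub S hD) ?_ hdD (H38OD.realAt_twist hD hreal) hram hdesc r M LM hgal hr
      _ hMD e he0 ?_ (rx_N (S := S) hD he1 ?_)
    · intro v hv
      by_contra h1
      rw [hok.two v h1] at hv
      exact lt_irrefl _ hv
    · rw [H76PP.Te_norm hMD]
      exact he3
    · rw [he2]
      exact hY
  refine rec_Mq hM S.ha S.hb hD hok.two hok.dis hok.val hTM hrx (q := q) ?_
  intro w hw y hy hyc hal hbe
  obtain ⟨V, hVw, hVf, hVq⟩ := hq w hw
  have hy' : algebraMap LM LN y ≠ 0 := (map_ne_zero _).2 hy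
  have hyc' : sc (algebraMap LM LN y) = c := by
    have h1 := H76PP.scm_sc (algebraMap LM LN : LM →* LN) hy
    have h2 := H76PP.scm_sc (algebraMap LM LN : LM →* LN) he0
    rw [hyc] at h1
    have h3 := h1.symm.trans h2
    have h4 : sc (algebraMap LM LN y) =
        sc (algebraMap LM LN (ev (algebraMap M LM (algebraMap K M D) * θM) e)) := h3
    rw [h4, hev, he2]
  have ha1 : al S.cub (algebraMap LM LN y) = algebraMap M N (al hM y) := al_up hM S.cub hML hθM y
  have hb1 : be S.cub (algebraMap LM LN y) = algebraMap M N (be hM y) :=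
    be_up hM S.cub hML hθM (hab a) y
  have h5 := hVq _ hy' hyc' (by rw [ha1]; exact (map_ne_zero _).2 hal)
    (by rw [hb1]; exact (map_ne_zero _).2 hbe)
  have hVo : OddP V := by
    have h6 : dn K V ∉ Sg := by
      have h7 : dn K (dn M V) = dn K V := H73P2.dn_dn V
      rw [← h7, hVw]
      exact hT _ ((hTM w).1 hw)
    have h8 := H76PP.val_one (L := N) (w := V) (hok.two _ h6)
    rwa [map_ofNat] at h8
  rw [ha1, hb1, hsv_down hgal hVo hVf hal hbe, hVw] at h5
  exact h5

end Aux

end H42GN
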