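import Pool.Agent.H88.GX.Ga
import Pool.Agent.H76.PP.Za

/-!
ROW Ha (MP_78d38b_GN, section 2, helper42, about 150 lines): Hilbert 90: an invariant class of square norm comes from the fixed field.

PROOF. exists_fix. `hfix`: for `g ∈ P`: `sc (S.ρ g x) = sc x` (H38T1.smul_sc), so (`sc_mul`, `sc_eq_zero`) there is `w g ≠ 0` with `S.ρ g x = x * w g ^ 2`. `norm N x = s0 * s0`, `s0 ≠ 0`; `norm_ρ`: `g (s0)^2 = s0^2 * norm (w g)^2`, so `norm (w g) = ± g s0 / s0`;
`norm (-w) = - norm w` (`norm (-1) = (-1)^3`, `Cub.finrank` = 3, `Algebra.norm_algebraMap`): choose the sign of `w g` such that `norm (w g) * s0 = g s0`.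
Cocycle: for `g, h ∈ P`: `w (g * h) = S.ρ g (w h) * w g`: the squares agree (`S.ρ (g h) x = S.ρ g (x * w h ^2) = x * w g^2 * (S.ρ g (w h))^2`), so they agree up to sign, and the norms agree (`g (norm (w h)) * norm (w g) = g (h s0 / s0) * g s0 / s0`), which are not zero, and `norm (-y) = - norm y`: the sign is `+`.
Poincare series: the ring automorphisms `S.ρ g`, `g ∈ P`, of `LN` are different (on `N`: S.ρF), so (`linearIndependent_monoidHom LN LN`) there is `z` with `u := ∑ g ∈ P, w g * S.ρ g z ≠ 0` (`w 1 ≠ 0`). For `h ∈ P`: `w h * S.ρ h u = u` (cocycle, `Fintype.sum_equiv` left multiplication by `h`).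
`t := x / u^2`... check: `S.ρ h (x * u^2) = x * w h ^2 * (S.ρ h u)^2 = x * u^2`: so `t := x * u^2` is fixed, `sc t = sc x`. `norm t = (s0 * norm u)^2` and `h (s0 * norm u) = h s0 * norm (S.ρ h u)`, `norm (w h) * norm (S.ρ h u) = norm u`, `norm (w h) * s0 = h s0`: so `h (s0 * norm u) = s0 * norm u`.
exists_coord: `S.cub.co i t` is fixed by `P` (`H88GX.Ga_co`), so it is in `fixedField P`; divide the coordinates by `1, D, D^2`.
exists_e: combine; `IsSquare (Te_nf ..)` in `fixedField P`: `Te_norm` for the twisted cubic (`S.cub.twist`, see Pool/Agent/H30/OD/Od3.lean V_fix), `Te_nf_map`, `s` is in the fixed field.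
-/

set_option autoImplicit false
set_option linter.unusedSectionVars false
open scoped Classical

open WithZero NumberField IsDedekindDomain H38RT
open H38T1 (SC sc scu rep eo la si OddP)

open H76PP (Cub LC ev scm dn Te_nf)

namespace H42GN

variable {K N LN : Type} [Field K] [NumberField K] [Field N] [NumberField N] [Field LN]
  [NumberField LN] [Algebra K N] [Algebra N LN] {a b : K} {θ : LN}

private lemma Ha_two (c : SC LN) : c + c = 0 := by
  obtain ⟨x, hx, rfl⟩ := H38T1.sc_surj c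
  rw [← H38T1.sc_mul hx hx]
  exact (H38T1.sc_eq_zero (mul_ne_zero hx hx)).2 ⟨x, rfl⟩

private lemma Ha_norm_neg (S : H88GX.Ext K N LN a b θ) (w : LN) :
    Algebra.norm N (-w) = -Algebra.norm N w := by
  have h1 : (-w : LN) = algebraMap N LN (-1) * w := by
    rw [map_neg, map_one, neg_one_mul]
  rw [h1, map_mul, Algebra.norm_algebraMap, S.cub.finrank]
  ring

private lemma Ha_norm_ne (S : H88GX.Ext K N LN a b θ) {w : LN} (hw : w ≠ 0) :
    Algebra.norm N w ≠ 0 := by
  have : Module.Finite N LN := Module.Finite.of_basis S.cub.basis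
  exact Algebra.norm_ne_zero_iff.2 hw

private lemma Ha_w (S : H88GX.Ext K N LN a b θ) (g : N ≃ₐ[K] N) {x : LN} (hx : x ≠ 0)
    {s0 : N} (hs0 : Algebra.norm N x = s0 * s0) (hfix : S.ρ g • sc x = sc x) :
    ∃ w : LN, w ≠ 0 ∧ S.ρ g x = x * w ^ 2 ∧ Algebra.norm N w * s0 = g s0 := by
  have hgx : S.ρ g x ≠ 0 := H38T1.Eb_ne _ hx
  have h1 : sc (S.ρ g x * x) = 0 := by
    rw [H38T1.sc_mul hgx hx, ← H38T1.smul_sc _ hx, hfix]
    exact Ha_two _
  obtain ⟨y, hy⟩ := (H38T1.sc_eq_zero (mul_ne_zero hgx hx)).1 h1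
  have hy0 : y ≠ 0 := by
    rintro rfl
    rw [mul_zero] at hy
    exact mul_ne_zero hgx hx hy
  have hw0 : y / x ≠ 0 := div_ne_zero hy0 hx
  have hw : S.ρ g x = x * (y / x) ^ 2 := by
    field_simp
    rw [hy]
    ring
  have hn := H88GX.norm_ρ S g x
  rw [hw, map_mul, map_pow, hs0, map_mul] at hn
  have h2 : (Algebra.norm N (y / x) * s0) ^ 2 = (g s0) ^ 2 := by linear_combination hn
  rcases sq_eq_sq_iff_eq_or_eq_neg.1 h2 with h3 | h3
  · exact ⟨y / x, hw0, hw, h3⟩
  · refine ⟨-(y / x), neg_ne_zero.2 hw0, by rw [neg_sq]; exact hw, ?_⟩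
    rw [Ha_norm_neg S, neg_mul, h3, neg_neg]

private lemma Ha_inj (S : H88GX.Ext K N LN a b θ) (P : Subgroup (N ≃ₐ[K] N)) :
    Function.Injective fun g : P => ((S.ρ (g : N ≃ₐ[K] N) : LN ≃ₐ[ℚ] LN) : LN →* LN) := by
  intro g g' h
  apply Subtype.ext
  apply AlgEquiv.ext
  intro x
  have h1 := DFunLike.congr_fun h (algebraMap N LN x)
  change S.ρ (g : N ≃ₐ[K] N) (algebraMap N LN x) = S.ρ (g' : N ≃ₐ[K] N) (algebraMap N LN x) at h1
  rw [S.ρF, S.ρF] at h1
  exact (algebraMap N LN).injective h1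

theorem exists_fix (S : H88GX.Ext K N LN a b θ) (P : Subgroup (N ≃ₐ[K] N)) {x : LN} (hx : x ≠ 0)
    (hsq : IsSquare (Algebra.norm N x)) (hfix : ∀ g ∈ P, S.ρ g • sc x = sc x) :
    ∃ t : LN, t ≠ 0 ∧ sc t = sc x ∧ (∀ g ∈ P, S.ρ g t = t) ∧
      ∃ s : N, (∀ g ∈ P, g s = s) ∧ Algebra.norm N t = s * s := by
  obtain ⟨s0, hs0⟩ := hsq
  have hs00 : s0 ≠ 0 := by
    rintro rfl
    rw [mul_zero] at hs0
    exact Ha_norm_ne S hx hs0
  have hw : ∀ g : P, ∃ w : LN, w ≠ 0 ∧ S.ρ (g : N ≃ₐ[K] N) x = x * w ^ 2 ∧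
      Algebra.norm N w * s0 = (g : N ≃ₐ[K] N) s0 := fun g =>
    Ha_w S g hx hs0 (hfix g g.2)
  choose W hW0 hWx hWs using hw
  have hmul : ∀ (g h : N ≃ₐ[K] N) (y : LN), S.ρ (g * h) y = S.ρ g (S.ρ h y) := by
    intro g h y
    rw [map_mul]
    rfl
  have hcoc : ∀ g h : P, W (g * h) = S.ρ (g : N ≃ₐ[K] N) (W h) * W g := by
    intro g h
    have h1 : (W (g * h)) ^ 2 = (S.ρ (g : N ≃ₐ[K] N) (W h) * W g) ^ 2 := by
      apply mul_left_cancel₀ hx
      rw [← hWx (g * h), Subgroup.coe_mul, hmul, hWx h, map_mul, map_pow, hWx g]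
      ring
    have h2 : Algebra.norm N (W (g * h)) =
        Algebra.norm N (S.ρ (g : N ≃ₐ[K] N) (W h) * W g) := by
      apply mul_right_cancel₀ hs00
      rw [hWs (g * h), map_mul, H88GX.norm_ρ, mul_assoc, hWs g, ← map_mul, hWs h,
        Subgroup.coe_mul, AlgEquiv.mul_apply]
    rcases sq_eq_sq_iff_eq_or_eq_neg.1 h1 with h3 | h3
    · exact h3
    · exfalso
      rw [h3, Ha_norm_neg S] at h2
      have h4 : Algebra.norm N (S.ρ (g : N ≃ₐ[K] N) (W h) * W g) ≠ 0 :=
        Ha_norm_ne S (mul_ne_zero (H38T1.Eb_ne _ (hW0 h)) (hW0 g))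
      exact h4 (by linear_combination (-1 / 2 : N) * h2)
  have : Finite (N ≃ₐ[K] N) := by
    have : FiniteDimensional K N := Module.Finite.of_restrictScalars_finite ℚ K N
    infer_instance
  let _ : Fintype P := Fintype.ofFinite P
  obtain ⟨z, hz⟩ : ∃ z : LN, ∑ g : P, W g * S.ρ (g : N ≃ₐ[K] N) z ≠ 0 := by
    by_contra hcon
    push Not at hcon
    have hli := (linearIndependent_monoidHom LN LN).comp _ (Ha_inj S P)
    have h1 := (Fintype.linearIndependent_iff.1 hli) W (by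
      funext z
      rw [Finset.sum_apply]
      exact hcon z) 1
    exact hW0 1 h1
  obtain ⟨u, hu⟩ : ∃ u, u = ∑ g : P, W g * S.ρ (g : N ≃ₐ[K] N) z := ⟨_, rfl⟩
  have hu0 : u ≠ 0 := by rw [hu]; exact hz
  have hWu : ∀ h : P, W h * S.ρ (h : N ≃ₐ[K] N) u = u := by
    intro h
    rw [hu, map_sum, Finset.mul_sum]
    refine Fintype.sum_equiv (Equiv.mulLeft h) _ _ fun g => ?_
    rw [Equiv.coe_mulLeft, hcoc h g, Subgroup.coe_mul, hmul, map_mul]
    ring
  refine ⟨x * u ^ 2, mul_ne_zero hx (pow_ne_zero _ hu0), ?_, ?_, s0 * Algebra.norm N u, ?_, ?_⟩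
  · rw [H38T1.sc_mul hx (pow_ne_zero _ hu0), (H38T1.sc_eq_zero (pow_ne_zero _ hu0)).2 ⟨u, sq u⟩,
      add_zero]
  · intro g hg
    have h1 := hWu ⟨g, hg⟩
    have h2 := hWx ⟨g, hg⟩
    change _ * S.ρ g u = u at h1
    change S.ρ g x = _ at h2
    rw [map_mul, map_pow, h2]
    calc x * W ⟨g, hg⟩ ^ 2 * (S.ρ g u) ^ 2 = x * (W ⟨g, hg⟩ * S.ρ g u) ^ 2 := by ring
      _ = x * u ^ 2 := by rw [h1]
  · intro g hg
    have h1 := congrArg (Algebra.norm N) (hWu ⟨g, hg⟩)
    have h2 := hWs ⟨g, hg⟩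
    change Algebra.norm N (_ * S.ρ g u) = _ at h1
    change _ = g s0 at h2
    rw [map_mul, H88GX.norm_ρ] at h1
    rw [map_mul, ← h2]
    linear_combination s0 * h1
  · rw [map_mul, map_pow, hs0]
    ring

theorem exists_coord (S : H88GX.Ext K N LN a b θ) (P : Subgroup (N ≃ₐ[K] N)) {t : LN}
    (ht : ∀ g ∈ P, S.ρ g t = t) {D : K} (hD : D ≠ 0) :
    ∃ e : Fin 3 → IntermediateField.fixedField P,
      ev (algebraMap N LN (algebraMap K N D) * θ) (fun i => ((e i : IntermediateField.fixedField P) : N)) = t := by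
  have hmem : ∀ i, S.cub.co i t ∈ IntermediateField.fixedField P := by
    intro i
    rw [IntermediateField.mem_fixedField_iff]
    intro g hg
    have h1 := H88GX.Ga_co S g t i
    rw [ht g hg] at h1
    exact h1.symm
  have hDF : algebraMap K N D ≠ 0 := (map_ne_zero _).2 hD
  have hDL : algebraMap N LN (algebraMap K N D) ≠ 0 := (map_ne_zero _).2 hDF
  have hDm : algebraMap K N D ∈ IntermediateField.fixedField P :=
    (IntermediateField.fixedField P).algebraMap_mem D
  refine ⟨![⟨_, hmem 0⟩, ⟨_, (IntermediateField.fixedField P).div_mem (hmem 1) hDm⟩,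
    ⟨_, (IntermediateField.fixedField P).div_mem (hmem 2)
      ((IntermediateField.fixedField P).pow_mem hDm 2)⟩], ?_⟩
  have h1 := S.cub.eq_co t
  conv_rhs => rw [h1]
  simp only [ev, Matrix.cons_val_zero, Matrix.cons_val_one, Matrix.cons_val_two,
      Matrix.head_cons, Matrix.tail_cons, map_div₀]
  field_simp
  simp only [map_pow]
  ring

theorem exists_e (S : H88GX.Ext K N LN a b θ) (P : Subgroup (N ≃ₐ[K] N)) {D : K} (hD : D ≠ 0)
    {c : SC LN} (hc : c ∈ H30ZO.HH N LN) (hfix : ∀ g ∈ P, S.ρ g • c = c) :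
    ∃ e : Fin 3 → IntermediateField.fixedField P,
      ev (algebraMap N LN (algebraMap K N D) * θ) (fun i => ((e i : IntermediateField.fixedField P) : N)) ≠ 0 ∧
      sc (ev (algebraMap N LN (algebraMap K N D) * θ) (fun i => ((e i : IntermediateField.fixedField P) : N))) = c ∧
      IsSquare (Te_nf (algebraMap K (IntermediateField.fixedField P) (D ^ 2 * a))
        (algebraMap K (IntermediateField.fixedField P) (D ^ 3 * b)) e) := by
  obtain ⟨x, hx, rfl⟩ := H38T1.sc_surj c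
  rw [H30ZO.mem_HH hx] at hc
  obtain ⟨t, ht0, htc, htf, s, hs, hsn⟩ := exists_fix S P hx hc hfix
  obtain ⟨e, he⟩ := exists_coord S P htf hD
  refine ⟨e, by rw [he]; exact ht0, by rw [he]; exact htc, ?_⟩
  have hDF : algebraMap K N D ≠ 0 := (map_ne_zero _).2 hD
  have hcubF : Cub N LN (algebraMap K N (D ^ 2 * a)) (algebraMap K N (D ^ 3 * b))
      (algebraMap N LN (algebraMap K N D) * θ) := by
    have h1 := S.cub.twist hDF
    rw [map_mul, map_mul, map_pow, map_pow]
    exact h1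
  have hsm : s ∈ IntermediateField.fixedField P := by
    rw [IntermediateField.mem_fixedField_iff]
    exact hs
  refine ⟨⟨s, hsm⟩, ?_⟩
  have hn := H76PP.Te_norm hcubF
    (fun i => ((e i : IntermediateField.fixedField P) : N))
  rw [he, hsn] at hn
  have hmap := H76PP.Te_nf_map (algebraMap (IntermediateField.fixedField P) N)
    (algebraMap K (IntermediateField.fixedField P) (D ^ 2 * a))
    (algebraMap K (IntermediateField.fixedField P) (D ^ 3 * b)) e
  apply (algebraMap (IntermediateField.fixedField P) N).injective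
  refine hmap.symm.trans ?_
  rw [← IsScalarTower.algebraMap_apply K (IntermediateField.fixedField P) N,
    ← IsScalarTower.algebraMap_apply K (IntermediateField.fixedField P) N]
  exact hn.symm

end H42GN
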