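import Pool.Agent.H42.GN.Df

/-!
ROW Hb (MP_78d38b_GN, helper42): the relaxed local conditions descend in a quadratic step.

PROOF. Copy of `relS_down` (Pool/Agent/H38/OD/Na.lean).
-/

set_option autoImplicit false
set_option linter.unusedSectionVars false
open scoped Classical

open WithZero NumberField IsDedekindDomain H38RT
open H38T1 (SC sc scu rep eo la si Pri OddP tp unif)
open H76PP H73P2 H36CY H73CY H73ZO H30ZO H38OD

namespace H42GN

variable {K k L k' L' N : Type} [Field K] [NumberField K] [Field k] [NumberField k] [Field L]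
  [NumberField L] [Field k'] [NumberField k'] [Field L'] [NumberField L'] [Field N] [NumberField N]
  [Algebra K k] [Algebra K k'] [Algebra k k'] [Algebra k L] [Algebra L L'] [Algebra k' L']
  [Algebra k L'] [IsScalarTower K k k'] [IsScalarTower k L L'] [IsScalarTower k k' L']
  [Algebra K N] [Algebra k N] [Algebra k' N] [IsScalarTower K k N] [IsScalarTower K k' N]
  [IsScalarTower k k' N]

theorem rx_step {Sg T : Finset (HeightOneSpectrum (𝓞 K))} {a b : K}
    (h2 : ∀ v : HeightOneSpectrum (𝓞 K), v.valuation K 2 < 1 → v ∈ Sg)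
    (hreal : ∀ s : k →+* ℝ, 0 < s (algebraMap K k (4 * a ^ 3 + 27 * b ^ 2)) ∨
      ∃ s' : k' →+* ℝ, ∀ x : k, s' (algebraMap k k' x) = s x)
    (hram : ∀ V : HeightOneSpectrum (𝓞 N), dn K V ∉ Sg → ¬ Ram K V)
    (hdesc : ∀ v ∈ Sg, DescAt K N v a b)
    {θ : L} {θ' : L'} (Q : QS k L k' L' (algebraMap K k a) (algebraMap K k b) θ θ')
    (f2 : Module.finrank L L' = 2) {e : Fin 3 → k} (hne : ev θ e ≠ 0)
    (hsq : IsSquare (Algebra.norm k (ev θ e)))
    (h : Rx K k' L' Sg T a b θ' (fun i => algebraMap k k' (e i))) : Rx K k L Sg T a b θ e := by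
  have hab : ∀ x : K, algebraMap K k' x = algebraMap k k' (algebraMap K k x) :=
    IsScalarTower.algebraMap_apply K k k'
  refine ⟨hne, hsq, ?_, ?_, ?_⟩
  · intro w hwg hwT
    obtain ⟨V, hV⟩ := exists_above (L := N) (dn k w)
    have hKV : dn K V = dn K (dn k w) := by
      rw [← hV]
      exact (dn_dn V).symm
    have hw2 : w.valuation L 2 = 1 := val2_up (K := k) (val2_up (K := K) (odd_of h2 hwg))
    have hr : ¬ Ram K V := hram V (by rw [hKV]; exact hwg)
    obtain ⟨h1, -⟩ := unram_mid (k := k) hr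
    obtain ⟨D, ρ, hρ, hρk, hD⟩ := exists_gen (k' := k') Q.two h1
    rw [hV] at hD
    refine even_unram Q f2 w hw2 hρ hρk hD hne fun w' hw' => ?_
    rw [Q.coord]
    have e1 : dn K (dn k' w') = dn K (dn k w) := by
      rw [← dn_sq (k := k) (L := L), hw']
    exact h.even w' (by rw [e1]; exact hwg) (by rw [e1]; exact hwT)
  · intro u hu
    refine hdesc _ hu k k' Q.two e ?_ ?_ (fun u' hu' => h.sg u' (by rw [hu']; exact hu)) u rfl
    · rw [← Te_norm Q.cub e, Ne, Algebra.norm_eq_zero_iff]
      exact hne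
    · rw [← Te_norm Q.cub e]
      exact hsq
  · intro s
    rcases hreal s with h1 | h1
    · refine LC_real s ?_ ?_
      · simpa only [map_add, map_mul, map_pow, map_ofNat] using h1
      · have h1 := Te_norm Q.cub e
        rw [← h1]
        obtain ⟨c, hc⟩ := hsq
        have h2 : Algebra.norm k (ev θ e) ≠ 0 := by
          rw [Ne, Algebra.norm_eq_zero_iff]
          exact hne
        rw [hc] at h2 ⊢
        rw [map_mul]
        have h3 : s c ≠ 0 := (map_ne_zero s).2 (left_ne_zero_of_mul h2)
        exact mul_self_pos.2 h3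
    · obtain ⟨s', hs'⟩ := h1
      have h1 := h.real s'
      unfold LC at h1 ⊢
      simp only [hab, hs'] at h1
      exact h1

end H42GN
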