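import Pool.Agent.H88.OD.Ga
import Pool.Agent.H76.PP.Tf

/-!
ROW Hf (MP_78d38b_GN, section 2, helper42, about 100 lines): a place with trivial decomposition group is unramified of degree one.

PROOF. `Ideal.card_stabilizer_eq` as in `Sp.ord_K` (Pool/Agent/H88/OD/Gf.lean): `1 = e * f`, so `e = f = 1`. unr_val: as there (`HeightOneSpectrum.valuation_liesOver`). unr_res: `f = 1`: `Ideal.inertiaDeg = finrank (𝓞 M / w) (𝓞 N / v) = 1`, so the map of residue fields is surjective;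
`y = n / d` with integers and `d ∉ v`: or use the lemma of the library: `y ∈ N` integral at `v` is congruent to an element of `𝓞 N` (see `val_NR` in Pool/Agent/H26/OD/Ka.lean).
-/

set_option autoImplicit false
set_option linter.unusedSectionVars false
open scoped Classical

open WithZero NumberField IsDedekindDomain H38RT
open H38T1 (SC sc scu rep eo la si OddP)

open H76PP (Cub LC ev scm dn)

namespace H42GN

variable {M N : Type} [Field M] [NumberField M] [Field N] [NumberField N] [Algebra M N]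

open scoped Pointwise in
private theorem Hf_stab {v : HeightOneSpectrum (𝓞 N)}
    (h : ∀ g : N ≃ₐ[M] N, H88OD.gq g • v = v → g = 1) (g : N ≃ₐ[M] N)
    (hg : g • v.asIdeal = v.asIdeal) : g = 1 := by
  apply h
  apply HeightOneSpectrum.ext
  ext x
  have h1 : H38T1.gO (H88OD.gq g)⁻¹ x = g⁻¹ • x := by
    apply RingOfIntegers.ext
    rw [H38T1.gO_coe]
    rfl
  change H38T1.gO (H88OD.gq g)⁻¹ x ∈ v.asIdeal ↔ x ∈ v.asIdeal
  rw [h1, ← Ideal.mem_pointwise_smul_iff_inv_smul_mem, hg]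

open scoped Pointwise in
private theorem Hf_card {v : HeightOneSpectrum (𝓞 N)}
    (h : ∀ g : N ≃ₐ[M] N, H88OD.gq g • v = v → g = 1) :
    Nat.card (MulAction.stabilizer (N ≃ₐ[M] N) v.asIdeal) = 1 := by
  rw [Nat.card_eq_one_iff_unique]
  refine ⟨⟨fun a b => Subtype.ext ?_⟩, ⟨1⟩⟩
  rw [Hf_stab h a.1 a.2, Hf_stab h b.1 b.2]

theorem unr_val (hgal : IsGalois M N) {v : HeightOneSpectrum (𝓞 N)}
    (h : ∀ g : N ≃ₐ[M] N, H88OD.gq g • v = v → g = 1) (x : M) :
    v.valuation N (algebraMap M N x) = (dn M v).valuation M x := by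
  have hl : v.asIdeal.LiesOver (dn M v).asIdeal := ⟨rfl⟩
  have hp := (dn M v).isPrime
  have hm := (dn M v).isMaximal
  have hP := v.isPrime
  have hG : IsGaloisGroup (N ≃ₐ[M] N) (𝓞 M) (𝓞 N) := inferInstance
  have h1 := Ideal.card_stabilizer_eq (G := N ≃ₐ[M] N) (dn M v).asIdeal v.asIdeal
  rw [Hf_card h] at h1
  have h3 := Nat.eq_one_of_mul_eq_one_right h1.symm
  rw [Ideal.ramificationIdxIn_eq_ramificationIdx (dn M v).asIdeal v.asIdeal
    (N ≃ₐ[M] N)] at h3
  have h4 := HeightOneSpectrum.valuation_liesOver N (dn M v) v x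
  rw [Ideal.ramificationIdx'_eq_ramificationIdx (dn M v).asIdeal v.asIdeal
    (dn M v).ne_bot, h3, pow_one] at h4
  exact h4.symm

theorem unr_res (hgal : IsGalois M N) {v : HeightOneSpectrum (𝓞 N)}
    (h : ∀ g : N ≃ₐ[M] N, H88OD.gq g • v = v → g = 1) (y : N) (hy : v.valuation N y ≤ 1) :
    ∃ x : M, (dn M v).valuation M x ≤ 1 ∧ v.valuation N (y - algebraMap M N x) < 1 := by
  obtain ⟨n, hn⟩ := H76PP.Tf_approx v hy
  have hl : v.asIdeal.LiesOver (dn M v).asIdeal := ⟨rfl⟩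
  have hp := (dn M v).isPrime
  have hm := (dn M v).isMaximal
  have hP := v.isPrime
  have hPm := v.isMaximal
  have hG : IsGaloisGroup (N ≃ₐ[M] N) (𝓞 M) (𝓞 N) := inferInstance
  have h1 := Ideal.card_stabilizer_eq (G := N ≃ₐ[M] N) (dn M v).asIdeal v.asIdeal
  rw [Hf_card h] at h1
  have h3 := Nat.eq_one_of_mul_eq_one_left h1.symm
  rw [Ideal.inertiaDegIn_eq_inertiaDeg (dn M v).asIdeal v.asIdeal (N ≃ₐ[M] N),
    Ideal.inertiaDeg_eq_of_isMaximal (dn M v).asIdeal v.asIdeal] at h3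
  let _ : Field (𝓞 M ⧸ (dn M v).asIdeal) := Ideal.Quotient.field _
  let _ : Field (𝓞 N ⧸ v.asIdeal) := Ideal.Quotient.field _
  obtain ⟨c, hc⟩ := exists_smul_eq_of_finrank_eq_one h3 (one_ne_zero : (1 : 𝓞 N ⧸ v.asIdeal) ≠ 0)
    (Ideal.Quotient.mk v.asIdeal n)
  obtain ⟨m, rfl⟩ := Ideal.Quotient.mk_surjective c
  have hc' : Ideal.Quotient.mk v.asIdeal (algebraMap (𝓞 M) (𝓞 N) m) =
      Ideal.Quotient.mk v.asIdeal n := by
    rw [← hc, Algebra.smul_def, mul_one]
    rfl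
  have h5 : n - algebraMap (𝓞 M) (𝓞 N) m ∈ v.asIdeal := by
    rw [← Ideal.Quotient.eq, hc']
  refine ⟨(m : M), (dn M v).valuation_le_one m, ?_⟩
  have h6 : v.valuation N (algebraMap (𝓞 N) N (n - algebraMap (𝓞 M) (𝓞 N) m)) < 1 :=
    (v.valuation_lt_one_iff_mem (K := N) _).2 h5
  have e : y - algebraMap M N (m : M) = (y - (n : N)) +
      algebraMap (𝓞 N) N (n - algebraMap (𝓞 M) (𝓞 N) m) := by
    rw [map_sub]
    have e1 : algebraMap (𝓞 N) N (algebraMap (𝓞 M) (𝓞 N) m) = algebraMap M N (m : M) := rfl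
    rw [e1]
    ring
  rw [e]
  exact (v.valuation N).map_add_lt hn h6

end H42GN
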