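import Pool.Agent.H42.GN.Hm
import Pool.Agent.H26.GN.E3

/-!
MP_78d38b_GN, section 2 (helper42): the bound for a Sylow subgroup.
-/

set_option autoImplicit false
open scoped Classical

open WithZero NumberField IsDedekindDomain H38RT
open H38T1 (SC sc scu rep eo la si OddP)
open H76PP (Cub LC ev scm dn)
open H36CY (DescAt)
open H30ZO (RealAt)

namespace H42GN

variable {K N LN : Type} [Field K] [NumberField K] [Field N] [NumberField N] [Field LN]
  [NumberField LN] [Algebra K N] [Algebra N LN] {a b : K} {θ : LN} {S : H88GX.Ext K N LN a b θ}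
  {Sg : Finset (HeightOneSpectrum (𝓞 K))} {D : K}

theorem free_of (hok : S.Ok D Sg) (hreal : RealAt K N a b)
    (hdesc : ∀ v ∈ Sg, DescAt K N v (D ^ 2 * a) (D ^ 3 * b))
    (hram : ∀ V : HeightOneSpectrum (𝓞 N), dn K V ∉ Sg → ¬ H73P2.Ram K V) :
    H26GX.Free S D Sg := by
  have hfd : FiniteDimensional K N := Module.Finite.of_restrictScalars_finite ℚ K N
  let P : Sylow 2 (N ≃ₐ[K] N) := default
  refine ⟨P, P.isPGroup', ?_, fun T hinj hgood =>
    card_fix hok hreal hdesc hram T hinj hgood P P.isPGroup'⟩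
  have h1 := P.not_dvd_index
  rwa [← even_iff_two_dvd, Nat.not_even_iff_odd] at h1

end H42GN
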