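import Pool.Agent.H42.GN.Hf
import Pool.Agent.H42.GN.Hh
import Pool.Agent.H36.MX.Fi
import Pool.Agent.H76.SD.Sa

/-!
MP_78d38b_GN, necessity, step (5) (helper42): Hilbert symbols under an extension of places with trivial decomposition group.
-/

set_option autoImplicit false
set_option linter.unusedSectionVars false
open scoped Classical

open WithZero NumberField IsDedekindDomain H38RT
open H38T1 (SC sc scu rep eo la si OddP tp)
open H36MX (hsv)
open H76PP (Cub LC ev scm dn)

namespace H42GN

variable {M N : Type} [Field M] [NumberField M] [Field N] [NumberField N] [Algebra M N]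

theorem oddP_down {v : HeightOneSpectrum (𝓞 N)}
    (hv : ∀ y : M, v.valuation N (algebraMap M N y) = (dn M v).valuation M y) :
    OddP v ↔ OddP (dn M v) := by
  have h1 : algebraMap M N 2 = 2 := map_ofNat _ 2
  unfold OddP
  rw [← hv, h1]

theorem tp_down {v : HeightOneSpectrum (𝓞 N)} (ho : OddP v)
    (hv : ∀ y : M, v.valuation N (algebraMap M N y) = (dn M v).valuation M y)
    (hres : ∀ y : N, v.valuation N y ≤ 1 →
      ∃ x : M, (dn M v).valuation M x ≤ 1 ∧ v.valuation N (y - algebraMap M N x) < 1)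
    {x y : M} (hx : x ≠ 0) (hy : y ≠ 0) :
    tp v (sc (algebraMap M N x)) (sc (algebraMap M N y)) = tp (dn M v) (sc x) (sc y) := by
  have ho' : OddP (dn M v) := (oddP_down hv).1 ho
  have hx' : algebraMap M N x ≠ 0 := (map_ne_zero _).2 hx
  have hy' : algebraMap M N y ≠ 0 := (map_ne_zero _).2 hy
  obtain ⟨q, d, ψ, h⟩ := H38T1.loc_of v
  have h' : Loc (v.valuation N) (algebraMap M N (H38T1.unif (dn M v))) q d ψ :=
    ⟨by rw [hv]; exact H38T1.unif_spec _, h.card, h.pos, h.cond⟩
  have hord : ∀ x : M, ord (v.valuation N) (algebraMap M N x) = ord ((dn M v).valuation M) x := by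
    intro x
    unfold ord
    rw [hv]
  have hlam : ∀ x : M, x ≠ 0 → lam (v.valuation N) (algebraMap M N (H38T1.unif (dn M v)))
      (algebraMap M N x) = lam ((dn M v).valuation M) (H38T1.unif (dn M v)) x := by
    intro x hx
    unfold lam
    have hp0 : H38T1.unif (dn M v) ≠ 0 := by
      intro h0
      have h1 := H38T1.unif_spec (dn M v)
      rw [h0, map_zero] at h1
      exact exp_ne_zero h1.symm
    have hu : (dn M v).valuation M
        (x * H38T1.unif (dn M v) ^ (-ord ((dn M v).valuation M) x)) = 1 := by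
      rw [map_mul, map_zpow₀, H38T1.unif_spec, H38RT.V_eq hx, ← exp_zsmul, ← exp_add]
      simp
    have e1 : algebraMap M N x * algebraMap M N (H38T1.unif (dn M v)) ^
        (-ord (v.valuation N) (algebraMap M N x)) =
        algebraMap M N (x * H38T1.unif (dn M v) ^ (-ord ((dn M v).valuation M) x)) := by
      rw [hord, map_mul, map_zpow₀]
    rw [e1]
    by_cases hS : Sq ((dn M v).valuation M)
        (x * H38T1.unif (dn M v) ^ (-ord ((dn M v).valuation M) x))
    · rw [if_pos hS, if_pos ((Hh_sq hv hres hu).2 hS)]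
    · rw [if_neg hS, if_neg fun h' => hS ((Hh_sq hv hres hu).1 h')]
  rw [H38T1.tp_sc ho hx' hy', H38T1.tp_sc ho' hx hy]
  unfold tm
  have h1 : (-1 : N) ≠ 0 := neg_ne_zero.2 one_ne_zero
  have h2 : algebraMap M N (-1 : M) = -1 := by rw [map_neg, map_one]
  have h3 : ord (v.valuation N) (-1 : N) = 0 := by
    unfold ord
    rw [Valuation.map_neg, map_one, log_one, neg_zero]
  have h4 : lam (v.valuation N) (H38T1.unif v) (-1) =
      lam ((dn M v).valuation M) (H38T1.unif (dn M v)) (-1) := by
    rw [H38T1.Eb_change h' h ho h1, h3, Int.cast_zero, zero_mul, add_zero,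
      ← hlam (-1) (neg_ne_zero.2 one_ne_zero), h2]
  rw [H38T1.Eb_change h' h ho hx', H38T1.Eb_change h' h ho hy', hlam x hx, hlam y hy, hord,
    hord, h4]
  generalize (ord ((dn M v).valuation M) x : ZMod 2) = a
  generalize (ord ((dn M v).valuation M) y : ZMod 2) = b
  generalize lam ((dn M v).valuation M) (H38T1.unif (dn M v)) x = e
  generalize lam ((dn M v).valuation M) (H38T1.unif (dn M v)) y = f
  generalize lam ((dn M v).valuation M) (H38T1.unif (dn M v)) (-1) = g
  generalize lam (v.valuation N) (H38T1.unif v) (algebraMap M N (H38T1.unif (dn M v))) = j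
  have h6 : (2 : ZMod 2) = 0 := rfl
  linear_combination (a * b * j) * h6

theorem hsv_down (hgal : IsGalois M N) {v : HeightOneSpectrum (𝓞 N)} (ho : OddP v)
    (h : ∀ g : N ≃ₐ[M] N, H88OD.gq g • v = v → g = 1) {x y : M} (hx : x ≠ 0) (hy : y ≠ 0) :
    hsv v (algebraMap M N x) (algebraMap M N y) = hsv (dn M v) x y := by
  have hv := unr_val hgal h
  have hx' : algebraMap M N x ≠ 0 := (map_ne_zero _).2 hx
  have hy' : algebraMap M N y ≠ 0 := (map_ne_zero _).2 hy
  rw [(H36MX.hilb N).odd v ho _ _ hx' hy', (H36MX.hilb M).odd _ ((oddP_down hv).1 ho) _ _ hx hy]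
  exact tp_down ho hv (unr_res hgal h) hx hy

end H42GN
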