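import Pool.Agent.H42.GN.Id

/-!
MP_78d38b_GN, necessity, step (5) (helper42): the sum over the places of `N` above `T` of the local symbols of a fixed class.
-/

set_option autoImplicit false
set_option linter.unusedSectionVars false
open scoped Classical

open WithZero NumberField IsDedekindDomain H38RT
open H38T1 (SC sc scu rep eo la si OddP)
open H36MX (hsv)
open H76MQ (al be)
open H76PP (Cub LC ev scm dn Te_nf)
open H36CY (DescAt)
open H30ZO (RealAt)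

namespace H42GN

variable {K N LN : Type} [Field K] [NumberField K] [Field N] [NumberField N] [Field LN]
  [NumberField LN] [Algebra K N] [Algebra N LN] {a b : K} {θ : LN} {S : H88GX.Ext K N LN a b θ}
  {Sg : Finset (HeightOneSpectrum (𝓞 K))} {D : K}

theorem gq_mul (g h : N ≃ₐ[K] N) : H88OD.gq (g * h) = H88OD.gq g * H88OD.gq h := rfl

theorem gq_one' : H88OD.gq (1 : N ≃ₐ[K] N) = 1 := rfl

theorem free_act {W : HeightOneSpectrum (𝓞 N)} (hfr : ∀ g : N ≃ₐ[K] N, H88OD.gq g • W = W → g = 1)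
    {g h : N ≃ₐ[K] N} (e : H88OD.gq g • W = H88OD.gq h • W) : g = h := by
  have h1 : H88OD.gq (h⁻¹ * g) • W = W := by
    rw [gq_mul, mul_smul, e, ← mul_smul, ← gq_mul, inv_mul_cancel, gq_one', one_smul]
  have h2 := hfr _ h1
  rw [inv_mul_eq_one] at h2
  exact h2.symm

section Aux

variable {M : Type} [Field M] [NumberField M] [Algebra K M] [Algebra M N] [IsScalarTower K M N]

theorem sum_fib (hgal : IsGalois M N) (hgK : IsGalois K N) (P : Subgroup (N ≃ₐ[K] N))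
    (hMP : ∀ h : N ≃ₐ[M] N, h.restrictScalars K ∈ P)
    (hPM : ∀ p ∈ P, ∃ h : N ≃ₐ[M] N, h.restrictScalars K = p)
    {T : Finset (HeightOneSpectrum (𝓞 K))} (W : {v // v ∈ T} → HeightOneSpectrum (𝓞 N))
    (hW : ∀ v, dn K (W v) = v.1)
    (hfr : ∀ v (g : N ≃ₐ[K] N), H88OD.gq g • W v = W v → g = 1)
    {TM : Finset (HeightOneSpectrum (𝓞 M))} (hTM : ∀ w, w ∈ TM ↔ dn K w ∈ T)
    [Fintype (N ≃ₐ[K] N)] [Fintype P] (F : {v // v ∈ T} → (N ≃ₐ[K] N) → ZMod 2) :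
    ∃ q : HeightOneSpectrum (𝓞 M) → ZMod 2,
      (∀ w ∈ TM, ∃ (v : {v // v ∈ T}) (k : N ≃ₐ[K] N), dn M (H88OD.gq k • W v) = w ∧
        q w = ∑ p : P, F v (p * k)) ∧ ∑ v, ∑ k, F v k = ∑ w ∈ TM, q w := by
  have hdd : ∀ v : HeightOneSpectrum (𝓞 N), dn K (dn M v) = dn K v := fun v => H73P2.dn_dn v
  have hmap : ∀ (v : {v // v ∈ T}) (k : N ≃ₐ[K] N), dn K (dn M (H88OD.gq k • W v)) = v.1 := by
    intro v k
    rw [hdd, H88OD.dn_gq, hW]
  -- a place of `M` above `T`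
  have hsurj : ∀ w ∈ TM, ∃ (v : {v // v ∈ T}) (k : N ≃ₐ[K] N), dn M (H88OD.gq k • W v) = w := by
    intro w hw
    obtain ⟨V, hV⟩ := H76PP.exists_above (L := N) w
    have hVT : dn K V ∈ T := by
      rw [← hdd, hV]
      exact (hTM w).1 hw
    obtain ⟨g, hg⟩ := H88GX.Gc_trans (K := K) (v := V) (v' := W ⟨_, hVT⟩) (by rw [hW])
    exact ⟨⟨_, hVT⟩, g, by rw [← hg, hV]⟩
  -- the fibres
  have hfib : ∀ (v v' : {v // v ∈ T}) (k k' : N ≃ₐ[K] N),
      dn M (H88OD.gq k • W v) = dn M (H88OD.gq k' • W v') → v = v' ∧ ∃ p ∈ P, k = p * k' := by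
    intro v v' k k' h
    have h1 : v = v' := by
      have h2 := congrArg (dn K) h
      rw [hmap, hmap] at h2
      exact Subtype.ext h2
    subst h1
    refine ⟨rfl, ?_⟩
    obtain ⟨m, hm⟩ := H88GX.Gc_trans h
    refine ⟨m.restrictScalars K, hMP m, ?_⟩
    have h3 : H88OD.gq k • W v = H88OD.gq (m.restrictScalars K * k') • W v := by
      rw [gq_mul, mul_smul]
      exact hm
    exact free_act (hfr v) h3
  have hfib' : ∀ (v : {v // v ∈ T}) (k p : N ≃ₐ[K] N), p ∈ P →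
      dn M (H88OD.gq (p * k) • W v) = dn M (H88OD.gq k • W v) := by
    intro v k p hp
    obtain ⟨h, rfl⟩ := hPM p hp
    rw [gq_mul, mul_smul]
    exact H88OD.dn_gq h _
  have hch : ∀ w : TM, ∃ x : {v // v ∈ T} × (N ≃ₐ[K] N), dn M (H88OD.gq x.2 • W x.1) = w.1 := by
    intro w
    obtain ⟨v, k, h⟩ := hsurj w.1 w.2
    exact ⟨(v, k), h⟩
  choose x hx using hch
  refine ⟨fun w => if h : w ∈ TM then ∑ p : P, F (x ⟨w, h⟩).1 (p * (x ⟨w, h⟩).2) else 0, ?_, ?_⟩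
  · intro w hw
    refine ⟨(x ⟨w, hw⟩).1, (x ⟨w, hw⟩).2, hx ⟨w, hw⟩, ?_⟩
    exact dif_pos hw
  · have h1 : ∑ v, ∑ k, F v k = ∑ z : {v // v ∈ T} × (N ≃ₐ[K] N), F z.1 z.2 :=
      (Fintype.sum_prod_type' F).symm
    rw [h1, ← Finset.sum_fiberwise_of_maps_to (s := Finset.univ) (t := TM)
      (g := fun z : {v // v ∈ T} × (N ≃ₐ[K] N) => dn M (H88OD.gq z.2 • W z.1)) (fun z _ => by
        rw [hTM, hmap]
        exact z.1.2)]
    refine Finset.sum_congr rfl fun w hw => ?_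
    have h2 : (if h : w ∈ TM then ∑ p : P, F (x ⟨w, h⟩).1 (p * (x ⟨w, h⟩).2) else 0) =
        ∑ p : P, F (x ⟨w, hw⟩).1 (p * (x ⟨w, hw⟩).2) := dif_pos hw
    refine Eq.trans ?_ h2.symm
    symm
    refine Finset.sum_bij (fun (p : P) _ => ((x ⟨w, hw⟩).1, (p : N ≃ₐ[K] N) * (x ⟨w, hw⟩).2)) ?_ ?_ ?_
      fun _ _ => rfl
    · intro p _
      rw [Finset.mem_filter]
      refine ⟨Finset.mem_univ _, ?_⟩
      exact (hfib' _ _ _ p.2).trans (hx ⟨w, hw⟩)
    · intro p _ p' _ h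
      have h3 := congrArg Prod.snd h
      exact Subtype.ext (mul_right_cancel h3)
    · rintro ⟨v, k⟩ hz
      rw [Finset.mem_filter] at hz
      obtain ⟨rfl, p, hp, rfl⟩ := hfib v (x ⟨w, hw⟩).1 k (x ⟨w, hw⟩).2 (hz.2.trans (hx ⟨w, hw⟩).symm)
      exact ⟨⟨p, hp⟩, Finset.mem_univ _, rfl⟩

theorem fix_sum_M (hgal : IsGalois M N) {r : ℕ} (hr : Module.finrank M N = 2 ^ r)
    (hok : S.Ok D Sg) (hreal : RealAt K N a b)
    (hdesc : ∀ v ∈ Sg, DescAt K N v (D ^ 2 * a) (D ^ 3 * b))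
    (hram : ∀ V : HeightOneSpectrum (𝓞 N), dn K V ∉ Sg → ¬ H73P2.Ram K V)
    (P : Subgroup (N ≃ₐ[K] N)) (hMP : ∀ h : N ≃ₐ[M] N, h.restrictScalars K ∈ P)
    (hPM : ∀ p ∈ P, ∃ h : N ≃ₐ[M] N, h.restrictScalars K = p)
    {T : Finset (HeightOneSpectrum (𝓞 K))} (hT : ∀ v ∈ T, v ∉ Sg) {c : SC LN} (hY : S.Y D Sg T c)
    (hE : ∃ e : Fin 3 → M,
      ev (algebraMap N LN (algebraMap K N D) * θ) (fun i => algebraMap M N (e i)) ≠ 0 ∧
      sc (ev (algebraMap N LN (algebraMap K N D) * θ) (fun i => algebraMap M N (e i))) = c ∧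
      IsSquare (Te_nf (algebraMap K M (D ^ 2 * a)) (algebraMap K M (D ^ 3 * b)) e))
    (W : {v // v ∈ T} → HeightOneSpectrum (𝓞 N)) (hW : ∀ v, dn K (W v) = v.1)
    (hfr : ∀ v (g : N ≃ₐ[K] N), H88OD.gq g • W v = W v → g = 1)
    {Q : {v // v ∈ T} → SC LN → ZMod 2}
    (hq : ∀ v, ∀ c ∈ H30ZO.HH N LN, ∀ y : LN, y ≠ 0 → sc y = c → al S.cub y ≠ 0 →
      be S.cub y ≠ 0 → hsv (W v) (al S.cub y) (be S.cub y) = Q v c)
    [Fintype (N ≃ₐ[K] N)] [Fintype P] {F : {v // v ∈ T} → (N ≃ₐ[K] N) → ZMod 2}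
    (hF : ∀ v k, ∑ p : P, F v (p * k) = Q v (S.ρ k⁻¹ • c)) : ∑ v, ∑ k, F v k = 0 := by
  obtain ⟨TM, hTM⟩ : ∃ A : Finset (HeightOneSpectrum (𝓞 M)), ∀ v, v ∈ A ↔ dn K v ∈ T := by
    have hfin : {v : HeightOneSpectrum (𝓞 M) | dn K v ∈ T}.Finite := by
      have h1 : {v : HeightOneSpectrum (𝓞 M) | dn K v ∈ T} =
          ⋃ v ∈ T, {u : HeightOneSpectrum (𝓞 M) | dn K u = v} := by
        ext w
        simp only [Set.mem_iUnion, Set.mem_ofPred_eq]
        constructor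
        · intro hw
          exact ⟨dn K w, hw, rfl⟩
        · rintro ⟨v, hv, hw⟩
          rw [hw]
          exact hv
      rw [h1]
      exact T.finite_toSet.biUnion fun v _ => H76PP.fin_above v
    exact ⟨hfin.toFinset, fun v => by rw [Set.Finite.mem_toFinset]; exact Iff.rfl⟩
  obtain ⟨q, hq1, hq2⟩ := sum_fib (M := M) hgal S.gal P hMP hPM W hW hfr hTM F
  rw [hq2]
  refine fix_sum_aux hgal hr hok hreal hdesc hram hT hY hE hTM fun w hw => ?_
  obtain ⟨v, k, h1, h2⟩ := hq1 w hw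
  refine ⟨H88OD.gq k • W v, h1, fun g hg => ?_, fun y hy hyc hal hbe => ?_⟩
  · have h3 : H88OD.gq (g.restrictScalars K * k) • W v = H88OD.gq k • W v := by
      rw [gq_mul, mul_smul]
      exact hg
    have h4 := free_act (hfr v) h3
    rw [mul_eq_right] at h4
    apply AlgEquiv.ext
    intro x
    exact congrArg (fun t : N ≃ₐ[K] N => t x) h4
  · rw [h2, hF, hsv_act]
    have hg : ∀ x : N, x ≠ 0 → (k⁻¹ : N ≃ₐ[K] N) x ≠ 0 := fun x hx => (map_ne_zero _).2 hx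
    refine hq v _ (H88GX.HH_smul S k⁻¹ hY.hh) _ (H38T1.Eb_ne _ hy) ?_ ?_ ?_
    · rw [← H38T1.smul_sc _ hy, hyc]
    · rw [al_act]
      exact hg _ hal
    · rw [be_act]
      exact hg _ hbe

end Aux

/-- The sum over the places above `T` of the local symbols of a class fixed by a group of two-power order. -/
theorem fix_sum (hok : S.Ok D Sg) (hreal : RealAt K N a b)
    (hdesc : ∀ v ∈ Sg, DescAt K N v (D ^ 2 * a) (D ^ 3 * b))
    (hram : ∀ V : HeightOneSpectrum (𝓞 N), dn K V ∉ Sg → ¬ H73P2.Ram K V)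
    (P : Subgroup (N ≃ₐ[K] N)) (hP : IsPGroup 2 P)
    {T : Finset (HeightOneSpectrum (𝓞 K))} (hT : ∀ v ∈ T, v ∉ Sg) {c : SC LN} (hY : S.Y D Sg T c)
    (hfix : ∀ g ∈ P, S.ρ g • c = c)
    (W : {v // v ∈ T} → HeightOneSpectrum (𝓞 N)) (hW : ∀ v, dn K (W v) = v.1)
    (hfr : ∀ v (g : N ≃ₐ[K] N), H88OD.gq g • W v = W v → g = 1)
    {Q : {v // v ∈ T} → SC LN → ZMod 2}
    (hq : ∀ v, ∀ c ∈ H30ZO.HH N LN, ∀ y : LN, y ≠ 0 → sc y = c → al S.cub y ≠ 0 →
      be S.cub y ≠ 0 → hsv (W v) (al S.cub y) (be S.cub y) = Q v c)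
    [Fintype (N ≃ₐ[K] N)] [Fintype P] {F : {v // v ∈ T} → (N ≃ₐ[K] N) → ZMod 2}
    (hF : ∀ v k, ∑ p : P, F v (p * k) = Q v (S.ρ k⁻¹ • c)) : ∑ v, ∑ k, F v k = 0 := by
  have _ : IsGalois K N := S.gal
  have hfd : FiniteDimensional K N := Module.Finite.of_restrictScalars_finite ℚ K N
  have hnf : NumberField (IntermediateField.fixedField P) :=
    NumberField.of_module_finite K (IntermediateField.fixedField P)
  have hgal : IsGalois (IntermediateField.fixedField P) N := IsGalois.tower_top_of_isGalois K _ N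
  obtain ⟨r, hr⟩ := IsPGroup.iff_card.1 hP
  refine fix_sum_M (M := IntermediateField.fixedField P) hgal (r := r) ?_ hok hreal hdesc hram P ?_
    ?_ hT hY (exists_e S P hok.ne hY.hh hfix) W hW hfr hq hF
  · rw [IntermediateField.finrank_fixedField_eq_card, hr]
  · intro h
    have h1 : h.restrictScalars K ∈ (IntermediateField.fixedField P).fixingSubgroup := by
      rw [IntermediateField.mem_fixingSubgroup_iff]
      intro x hx
      exact h.commutes ⟨x, hx⟩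
    rwa [IntermediateField.fixingSubgroup_fixedField] at h1
  · intro p hp
    refine ⟨AlgEquiv.ofRingEquiv (f := p.toRingEquiv) fun x => ?_, ?_⟩
    · exact x.2 ⟨p, hp⟩
    · apply AlgEquiv.ext
      intro x
      rfl

end H42GN
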