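import Pool.Agent.H42.GN.Ie

/-!
MP_78d38b_GN, necessity, step (5) (helper42): the form `om` is alternating and vanishes on `(y, g y)` for involutions `g`.
-/

set_option autoImplicit false
set_option linter.unusedSectionVars false
open scoped Classical

open WithZero NumberField IsDedekindDomain H38RT
open H38T1 (SC sc scu rep eo la si OddP)
open H36MX (hsv)
open H76MQ (al be)
open H76PP (Cub LC ev scm dn Te_nf)
open H36CY (DescAt)
open H30ZO (RealAt)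

namespace H42GN

/-- The group of order two generated by an involution. -/
def inv2 {G : Type} [Group G] {g : G} (hg : g * g = 1) : Subgroup G where
  carrier := {x | x = 1 ∨ x = g}
  mul_mem' := by
    rintro x y (rfl | rfl) (rfl | rfl)
    · exact Or.inl (one_mul 1)
    · exact Or.inr (one_mul _)
    · exact Or.inr (mul_one _)
    · exact Or.inl hg
  one_mem' := Or.inl rfl
  inv_mem' := by
    rintro x (rfl | rfl)
    · exact Or.inl inv_one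
    · exact Or.inr (inv_eq_of_mul_eq_one_left hg)

theorem inv2_p {G : Type} [Group G] {g : G} (hg : g * g = 1) : IsPGroup 2 (inv2 hg) := by
  rintro ⟨x, hx⟩
  refine ⟨1, Subtype.ext ?_⟩
  change x ^ 2 ^ 1 = 1
  rw [pow_one, sq]
  rcases hx with rfl | rfl
  · exact one_mul 1
  · exact hg

theorem inv2_sum {G : Type} [Group G] {g : G} (hg : g * g = 1) (hg1 : g ≠ 1) [Fintype (inv2 hg)]
    (f : G → ZMod 2) : ∑ p : inv2 hg, f p = f 1 + f g := by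
  have h1 : (Finset.univ : Finset (inv2 hg)) = {⟨1, Or.inl rfl⟩, ⟨g, Or.inr rfl⟩} := by
    ext ⟨x, hx⟩
    simp only [Finset.mem_univ, Finset.mem_insert, Finset.mem_singleton, Subtype.mk.injEq, true_iff]
    exact hx
  rw [h1, Finset.sum_pair]
  intro h
  exact hg1 (congrArg Subtype.val h).symm

variable {K N LN : Type} [Field K] [NumberField K] [Field N] [NumberField N] [Field LN]
  [NumberField LN] [Algebra K N] [Algebra N LN] {a b : K} {θ : LN} {S : H88GX.Ext K N LN a b θ}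
  {Sg : Finset (HeightOneSpectrum (𝓞 K))} {D : K}

/-- **Reciprocity over `N`.** -/
theorem rec_sum (hok : S.Ok D Sg) (hreal : RealAt K N a b)
    (hdesc : ∀ v ∈ Sg, DescAt K N v (D ^ 2 * a) (D ^ 3 * b))
    (hram : ∀ V : HeightOneSpectrum (𝓞 N), dn K V ∉ Sg → ¬ H73P2.Ram K V)
    {T : Finset (HeightOneSpectrum (𝓞 K))} (hT : ∀ v ∈ T, v ∉ Sg)
    (W : {v // v ∈ T} → HeightOneSpectrum (𝓞 N)) (hW : ∀ v, dn K (W v) = v.1)
    (hfr : ∀ v (g : N ≃ₐ[K] N), H88OD.gq g • W v = W v → g = 1)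
    {ι : {v // v ∈ T} → Type} [∀ v, Fintype (ι v)] (r u : ∀ v, ι v → (SC LN →+ ZMod 2))
    (hq : ∀ v, ∀ c ∈ H30ZO.HH N LN, ∀ y : LN, y ≠ 0 → sc y = c → al S.cub y ≠ 0 →
      be S.cub y ≠ 0 → hsv (W v) (al S.cub y) (be S.cub y) = ∑ i, r v i c * u v i c)
    [Fintype (N ≃ₐ[K] N)] {y : SC LN} (hy : S.Y D Sg T y) :
    ∑ v, ∑ k : N ≃ₐ[K] N, ∑ i, r v i (S.ρ k⁻¹ • y) * u v i (S.ρ k⁻¹ • y) = 0 := by
  let _ : Fintype (⊥ : Subgroup (N ≃ₐ[K] N)) := Fintype.ofFinite _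
  refine fix_sum hok hreal hdesc hram (⊥ : Subgroup (N ≃ₐ[K] N)) IsPGroup.of_bot hT hy ?_ W hW hfr
    (Q := fun v c => ∑ i, r v i c * u v i c) hq (F := fun v k =>
      ∑ i, r v i (S.ρ k⁻¹ • y) * u v i (S.ρ k⁻¹ • y)) ?_
  · intro g hg
    rw [Subgroup.mem_bot] at hg
    rw [hg, map_one, one_smul]
  · intro v k
    rw [Fintype.sum_subsingleton _ (1 : (⊥ : Subgroup (N ≃ₐ[K] N))), Subgroup.coe_one, one_mul]

/-- **The vanishing at involutions.** -/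
theorem inv_sum (hok : S.Ok D Sg) (hreal : RealAt K N a b)
    (hdesc : ∀ v ∈ Sg, DescAt K N v (D ^ 2 * a) (D ^ 3 * b))
    (hram : ∀ V : HeightOneSpectrum (𝓞 N), dn K V ∉ Sg → ¬ H73P2.Ram K V)
    {T : Finset (HeightOneSpectrum (𝓞 K))} (hT : ∀ v ∈ T, v ∉ Sg)
    (W : {v // v ∈ T} → HeightOneSpectrum (𝓞 N)) (hW : ∀ v, dn K (W v) = v.1)
    (hfr : ∀ v (g : N ≃ₐ[K] N), H88OD.gq g • W v = W v → g = 1)
    {ι : {v // v ∈ T} → Type} [∀ v, Fintype (ι v)] (r u : ∀ v, ι v → (SC LN →+ ZMod 2))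
    (hq : ∀ v, ∀ c ∈ H30ZO.HH N LN, ∀ y : LN, y ≠ 0 → sc y = c → al S.cub y ≠ 0 →
      be S.cub y ≠ 0 → hsv (W v) (al S.cub y) (be S.cub y) = ∑ i, r v i c * u v i c)
    [Fintype (N ≃ₐ[K] N)] {y : SC LN} (hy : S.Y D Sg T y) {g : N ≃ₐ[K] N} (hg : g * g = 1) :
    ∑ v, ∑ k : N ≃ₐ[K] N, ∑ i, r v i (S.ρ k⁻¹ • y) * u v i (S.ρ k⁻¹ • (S.ρ g • y)) = 0 := by
  have h0 := rec_sum hok hreal hdesc hram hT W hW hfr r u hq hy
  by_cases hg1 : g = 1
  · rw [hg1, map_one, one_smul]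
    exact h0
  have hgi : g⁻¹ = g := inv_eq_of_mul_eq_one_left hg
  have hgg : ∀ x : SC LN, S.ρ g • (S.ρ g • x) = x := by
    intro x
    rw [← mul_smul, ← map_mul, hg, map_one, one_smul]
  have hki : ∀ (k : N ≃ₐ[K] N) (x : SC LN), S.ρ (g * k)⁻¹ • x = S.ρ k⁻¹ • (S.ρ g • x) := by
    intro k x
    rw [mul_inv_rev, hgi, map_mul, mul_smul]
  have hY : S.Y D Sg T (y + S.ρ g • y) := by
    obtain ⟨Z, -, hZ⟩ := H88GX.exists_YG S hok.ne Sg T
    rw [← hZ]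
    exact Z.add_mem ((hZ _).2 hy) ((hZ _).2 (H88GX.Y_smul S g hy))
  let _ : Fintype (inv2 hg) := Fintype.ofFinite _
  have h1 := fix_sum hok hreal hdesc hram (inv2 hg) (inv2_p hg) hT hY (by
      rintro h (rfl | rfl)
      · rw [map_one, one_smul]
      · rw [smul_add, hgg, add_comm]) W hW hfr
    (Q := fun v c => ∑ i, r v i c * u v i c) hq (F := fun v k =>
      ∑ i, r v i (S.ρ k⁻¹ • y) * (u v i (S.ρ k⁻¹ • y) + u v i (S.ρ k⁻¹ • (S.ρ g • y)))) (by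
      intro v k
      rw [inv2_sum hg hg1 (fun p => ∑ i, r v i (S.ρ (p * k)⁻¹ • y) *
        (u v i (S.ρ (p * k)⁻¹ • y) + u v i (S.ρ (p * k)⁻¹ • (S.ρ g • y)))), one_mul,
        ← Finset.sum_add_distrib]
      refine Finset.sum_congr rfl fun i _ => ?_
      rw [hki, hki, hgg, smul_add, map_add, map_add]
      ring)
  have h2 : ∑ v, ∑ k : N ≃ₐ[K] N,
      ∑ i, r v i (S.ρ k⁻¹ • y) * (u v i (S.ρ k⁻¹ • y) + u v i (S.ρ k⁻¹ • (S.ρ g • y))) =
      ∑ v, ∑ k : N ≃ₐ[K] N, ∑ i, r v i (S.ρ k⁻¹ • y) * u v i (S.ρ k⁻¹ • y) +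
      ∑ v, ∑ k : N ≃ₐ[K] N, ∑ i, r v i (S.ρ k⁻¹ • y) * u v i (S.ρ k⁻¹ • (S.ρ g • y)) := by
    rw [← Finset.sum_add_distrib]
    refine Finset.sum_congr rfl fun v _ => ?_
    rw [← Finset.sum_add_distrib]
    refine Finset.sum_congr rfl fun k _ => ?_
    rw [← Finset.sum_add_distrib]
    refine Finset.sum_congr rfl fun i _ => ?_
    rw [mul_add]
  rw [h2, h0, zero_add] at h1
  exact h1

end H42GN
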