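import Pool.Agent.H42.GN.Ig

/-!
MP_78d38b_GN, necessity, steps (2) and (3): stubs, to be replaced (helper30).
-/

set_option autoImplicit false
set_option linter.unusedSectionVars false
open scoped Classical

open WithZero NumberField IsDedekindDomain H38RT
open H38T1 (SC sc scu rep eo la si OddP)
open H76PP (Cub LC ev scm dn)
open H30ZO (nb)

namespace H42GN

variable {K F L : Type} [Field K] [NumberField K] [Field F] [NumberField F] [Field L]
  [NumberField L] [Algebra K F] [Algebra F L] {a b : K} {θ : L} {S : H88GX.Ext K F L a b θ}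
  {Sg : Finset (HeightOneSpectrum (𝓞 K))}

theorem card_YW {D : K} (ok : S.Ok D Sg) {T : Finset (HeightOneSpectrum (𝓞 K))}
    (hT : ∀ v ∈ T, v ∉ Sg) (W : {v // v ∈ T} → HeightOneSpectrum (𝓞 F))
    (hW : ∀ v, dn K (W v) = v.1) (hfr : ∀ v (g : F ≃ₐ[K] F), H88OD.gq g • W v = W v → g = 1)
    {m : {v // v ∈ T} → ℕ} (hnb : ∀ v, nb F L (W v) = m v + 1) {Y : AddSubgroup (SC L)}
    (hY : ∀ c, c ∈ Y ↔ S.Y D Sg T c) :
    2 ^ (Nat.card (F ≃ₐ[K] F) * ∑ v, m v) ≤ Nat.card Y := by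
  sorry

theorem even_m {D : K} (ok : S.Ok D Sg) {δ : K} (hδ : δ ≠ 0)
    (hsq : ∀ u ∈ Sg, IsSquare (algebraMap K (u.adicCompletion K) δ))
    (hpos : ∀ s : K →+* ℝ, 0 < s δ) {T : Finset (HeightOneSpectrum (𝓞 K))}
    (hTδ : ∀ v, v ∈ T ↔ v ∉ Sg ∧ Odd (ord (v.valuation K) δ))
    (W : {v // v ∈ T} → HeightOneSpectrum (𝓞 F)) (hW : ∀ v, dn K (W v) = v.1)
    (hfr : ∀ v (g : F ≃ₐ[K] F), H88OD.gq g • W v = W v → g = 1) {m : {v // v ∈ T} → ℕ}
    (hm : ∀ v, (m v : ZMod 2) =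
      la (W v) (sc (-(4 * (algebraMap K F a) ^ 3 + 27 * (algebraMap K F b) ^ 2)))) :
    Even (∑ v, m v) := by
  sorry

end H42GN
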